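import Mathlib

/-! # Project TL: one arbitrary multiplicative function against functions of smooth parts

Definitions and statements of the parts.  Everything is unconditional.
-/

set_option autoImplicit false

namespace Pool.Agent.W208.TL

open Finset Filter

/-- the primes in `(w, y]` -/
def PP (w y : ℕ) : Finset ℕ := (Ioc w y).filter Nat.Prime

/-- the part of `n` composed of the primes in `(w, y]`; note `sm w y 0 = 1` -/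
noncomputable def sm (w y n : ℕ) : ℕ := ∏ l ∈ PP w y, l ^ n.factorization l

/-- the value `|α m + β|` of a linear form -/
def lf (α : ℕ) (β : ℤ) (m : ℕ) : ℕ := ((α : ℤ) * m + β).natAbs

/-- the forms `α i * m + β i` are independent at the primes above `w` -/
def Indep {J : ℕ} (w : ℕ) (α : Fin J → ℕ) (β : Fin J → ℤ) : Prop :=
  (∀ i, 1 ≤ α i) ∧ ∀ l : ℕ, l.Prime → w < l → (∀ i, ¬ l ∣ α i) ∧
    ∀ i j, i ≠ j → ¬ (l : ℤ) ∣ (α i : ℤ) * β j - (α j : ℤ) * β i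

open Classical in
/-- the density of the vector `d` of `(w, y]`-parts -/
noncomputable def dens {J : ℕ} (w y : ℕ) (d : Fin J → ℕ) : ℝ :=
  if (∀ i, sm w y (d i) = d i) ∧ (∀ i j, i ≠ j → Nat.Coprime (d i) (d j)) then
    (∏ l ∈ PP w y, (1 - (if ∃ i, l ∣ d i then (1 : ℝ) else (J : ℝ)) / l)) / ∏ i, (d i : ℝ)
  else 0

/-- the limit law of one `(w, y]`-part: `V / d` for the numbers `d` composed of primes in `(w, y]` -/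
noncomputable def mu (w y d : ℕ) : ℝ :=
  if sm w y d = d then (∏ l ∈ PP w y, (1 - 1 / (l : ℝ))) / d else 0

/-- vectors with entries in `[1, Z]` -/
def box (J Z : ℕ) : Finset (Fin J → ℕ) := Fintype.piFinset (fun _ => Icc 1 Z)

open Classical in
/-- LAW (from the fundamental lemma `Pool.Agent.H373R2.T7.sys_fund`) -/
def LAW : Prop := ∀ J : ℕ, 1 ≤ J → ∀ ε : ℝ, 0 < ε → ε ≤ 1 → ∃ K y0 : ℕ, 1 ≤ K ∧
  ∀ (α : Fin J → ℕ) (β : Fin J → ℤ) (w : ℕ), Indep w α β →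
  ∀ Q b : ℕ, 1 ≤ Q → (∀ l : ℕ, l.Prime → l ∣ Q → l ≤ w) → ∀ y X : ℕ, y0 ≤ y → ∀ d : Fin J → ℕ,
    |(((Ioc 0 X).filter (fun m => m ≡ b [MOD Q] ∧ ∀ i, sm w y (lf (α i) (β i) m) = d i)).card : ℝ) -
      X / Q * dens w y d| ≤ ε * (X / Q * dens w y d) + (y : ℝ) ^ K + J + 3

/-- TAIL (large smooth parts are rare) -/
def TAIL : Prop := ∃ C : ℝ, 0 < C ∧ ∀ X y Z : ℕ, 2 ≤ y → 2 ≤ Z →
  (((Ioc 0 X).filter (fun n => Z < sm 0 y n)).card : ℝ) ≤ C * Real.log y / Real.log Z * X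

/-- CLAIM: the vector of `(w, y]`-parts of independent linear forms, in a residue class modulo `Q`,
has nearly the product law, in total variation -/
def CLAIM : Prop := ∀ J : ℕ, 1 ≤ J → ∀ ε : ℝ, 0 < ε → ∃ K1 K w0 : ℕ, 1 ≤ K1 ∧ 1 ≤ K ∧
  ∀ w Q : ℕ, w0 ≤ w → 1 ≤ Q → (∀ l : ℕ, l.Prime → l ∣ Q → l ≤ w) → ∃ y0 : ℕ, ∀ y : ℕ, y0 ≤ y →
    |∑ d ∈ Icc 1 (y ^ K1), mu w y d - 1| ≤ ε ∧
    ∀ (α : Fin J → ℕ) (β : Fin J → ℤ), Indep w α β → ∀ b M : ℕ, y ^ K ≤ M →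
    ∀ Ψ : (Fin J → ℕ) → ℂ, (∀ d, ‖Ψ d‖ ≤ 1) →
      ‖((Q : ℂ) / (M : ℂ)) * ∑ m ∈ (Ioc 0 M).filter (fun m => m ≡ b [MOD Q]),
          Ψ (fun i => sm w y (lf (α i) (β i) m)) -
        ∑ d ∈ box J (y ^ K1), Ψ d * ∏ i, (mu w y (d i) : ℂ)‖ ≤ ε

/-- functions with `f (p n) = c p * f' n` for primes `p` not dividing `n`: bounded multiplicative
functions (`f' = f`) and functions of `Ω` (`c = 1`) -/
def KF (f : ℕ → ℂ) : Prop := (∀ n, ‖f n‖ ≤ 1) ∧ ∃ (c f' : ℕ → ℂ), (∀ n, ‖c n‖ ≤ 1) ∧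
  (∀ n, ‖f' n‖ ≤ 1) ∧ ∀ p n : ℕ, p.Prime → ¬ p ∣ n → f (p * n) = c p * f' n

/-- KAT: the criterion of Katai, with all primes above `B`, uniformly over `KF` -/
def KAT : Prop := ∀ (ε : ℝ) (B : ℕ), 0 < ε → ∃ P : Finset ℕ, (∀ p ∈ P, p.Prime ∧ B < p) ∧
  ∃ δ : ℝ, 0 < δ ∧ δ < 1 ∧ ∃ N0 : ℕ, ∀ N : ℕ, N0 ≤ N → ∀ F : ℕ → ℂ, (∀ n, ‖F n‖ ≤ 1) →
    (∀ p ∈ P, ∀ q ∈ P, p ≠ q → ∀ M : ℕ, δ * N ≤ M → M ≤ N →
      ‖∑ m ∈ Ioc 0 M, F (p * m) * star (F (q * m))‖ ≤ δ * N) →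
    ∀ f : ℕ → ℂ, KF f → ‖∑ n ∈ Ioc 0 N, f n * F n‖ ≤ ε * N

/-- average of `Φ (A j * d j)` over the product law -/
noncomputable def cav {k : ℕ} (w y Z : ℕ) (Φ : (Fin k → ℕ) → ℂ) (A : Fin k → ℕ) : ℂ :=
  (∑ d ∈ box k Z, Φ (fun j => A j * d j) * ∏ j, (mu w y (d j) : ℂ)) /
    (∑ d ∈ Icc 1 Z, (mu w y d : ℂ)) ^ k

/-- ST: the structure theorem.  Against every `f` in `KF`, every bounded function of the `y`-smooth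
parts of `n + a j` is close to an explicit function of the `gcd (n + a j, Q)`. -/
def ST : Prop := ∀ (k : ℕ) (a : Fin k → ℤ), 1 ≤ k → Function.Injective a → (∀ j, a j ≠ 0) →
  ∀ Q0 : ℕ, 1 ≤ Q0 → ∀ ε : ℝ, 0 < ε → ∃ Q w K1 K y0 : ℕ, Q0 ∣ Q ∧ 1 ≤ Q ∧ 1 ≤ K1 ∧ 1 ≤ K ∧
  ∀ y X : ℕ, y0 ≤ y → y ^ K ≤ X → 
    |∑ d ∈ Icc 1 (y ^ K1), mu w y d - 1| ≤ ε ∧
    (∀ ψ : ℕ → ℂ, (∀ d, ‖ψ d‖ ≤ 1) → ‖(∑ m ∈ Ioc 0 X, ψ (sm w y m)) / (X : ℂ) -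
      ∑ d ∈ Icc 1 (y ^ K1), ψ d * (mu w y d : ℂ)‖ ≤ ε) ∧
    ∀ Φ : (Fin k → ℕ) → ℂ, (∀ d, ‖Φ d‖ ≤ 1) → ∀ f : ℕ → ℂ, KF f →
    ∀ ρ : ℕ → ℂ, (∀ n, ‖ρ n‖ ≤ 1) → (∀ n, ρ (n + Q0) = ρ n) →
      ‖∑ n ∈ Ioc 0 X, f n * (ρ n * (Φ (fun j => sm 0 y (lf 1 (a j) n)) -
        cav w y (y ^ K1) Φ (fun j => Nat.gcd (lf 1 (a j) n) Q)))‖ ≤ ε * X

/-- bounded multiplicative functions -/
def Mul1 (g : ℕ → ℂ) : Prop :=
  (∀ n, ‖g n‖ ≤ 1) ∧ g 1 = 1 ∧ ∀ m n : ℕ, Nat.Coprime m n → g (m * n) = g m * g n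

/-- NEAR: a multiplicative function that is near `1` on the primes in `(y, X]` is near its value at
the `y`-smooth part -/
def NEAR : Prop := ∀ (K : ℕ) (ε : ℝ), 1 ≤ K → 0 < ε → ∃ δ : ℝ, 0 < δ ∧ ∃ y0 : ℕ,
  ∀ y X : ℕ, y0 ≤ y → y ≤ X → X ≤ y ^ K → ∀ u : ℕ → ℂ, Mul1 u →
    (∑ p ∈ PP y X, (1 - (u p).re) / p ≤ δ) → ∑ n ∈ Ioc 0 X, ‖u n - u (sm 0 y n)‖ ≤ ε * X

/-- the twist `n ^ {i t}` -/
noncomputable def nit (t : ℝ) (n : ℕ) : ℂ := Complex.exp (Complex.I * (t * Real.log n : ℝ))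

/-- mean values in residue classes up to `X`, for all moduli up to `A` and all twists `|t| ≤ A` -/
def SmallMeans (f : ℕ → ℂ) (A X : ℕ) : Prop := ∀ q r : ℕ, 1 ≤ q → q ≤ A → ∀ t : ℝ, |t| ≤ A →
  ‖∑ n ∈ (Ioc 0 X).filter (fun n => n ≡ r [MOD q]), f n * nit t n‖ ≤ X / A

/-- UELL: the uniform statement for Elliott correlations with one arbitrary factor -/
def UELL : Prop := ∀ (k h0 : ℕ) (h : Fin k → ℕ), Function.Injective h → (∀ j, h j ≠ h0) →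
  ∀ (B : ℕ) (ε : ℝ), 0 < ε → ∃ A X0 : ℕ, 1 ≤ A ∧ ∀ X : ℕ, X0 ≤ X →
    ∀ f : ℕ → ℂ, Mul1 f → SmallMeans f A X →
    ∀ (q : Fin k → ℕ) (χ : ∀ j, DirichletCharacter ℂ (q j)) (t : Fin k → ℝ) (u : Fin k → ℕ → ℂ),
      (∀ j, 1 ≤ q j ∧ q j ≤ B) → (∀ j, |t j| ≤ B) → (∀ j, Mul1 (u j)) →
      (∀ j, ∑ p ∈ (Icc 1 X).filter (fun p => p.Prime ∧ X < p ^ A), (1 - (u j p).re) / p ≤ 1 / A) →
      ‖∑ n ∈ Ioc 0 X, f (n + h0) * ∏ j, (χ j ((n + h j : ℕ) : ZMod (q j)) * nit (t j) (n + h j) *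
        u j (n + h j))‖ ≤ ε * X

/-- a function close to `1` on the primes in `(X ^ (1 / K), X]`, for every fixed `K` -/
def Tame (u : ℕ → ℂ) : Prop := ∀ K : ℕ, 1 ≤ K → Tendsto (fun X : ℕ =>
  ∑ p ∈ (Icc 1 X).filter (fun p => p.Prime ∧ X < p ^ K), (1 - (u p).re) / p) atTop (nhds 0)

/-- ELL: Elliott correlations with one arbitrary aperiodic factor -/
def ELL : Prop := ∀ (k h0 : ℕ) (h : Fin k → ℕ), Function.Injective h → (∀ j, h j ≠ h0) →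
  ∀ f : ℕ → ℂ, Mul1 f → (∀ q r : ℕ, 1 ≤ q → Tendsto (fun X : ℕ =>
      (∑ n ∈ (Ioc 0 X).filter (fun n => n ≡ r [MOD q]), f n) / (X : ℂ)) atTop (nhds 0)) →
  ∀ (q : Fin k → ℕ) (χ : ∀ j, DirichletCharacter ℂ (q j)) (t : Fin k → ℝ) (u : Fin k → ℕ → ℂ),
      (∀ j, 1 ≤ q j) → (∀ j, Mul1 (u j)) → (∀ j, Tame (u j)) →
    Tendsto (fun X : ℕ => (∑ n ∈ Ioc 0 X, f (n + h0) * ∏ j, (χ j ((n + h j : ℕ) : ZMod (q j)) *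
      nit (t j) (n + h j) * u j (n + h j))) / (X : ℂ)) atTop (nhds 0)

/-- OM: independence of `Ω(n + h0)` (exactly) and of the `Ω(n + h j)` at every scale tending to
infinity -/
def OM : Prop := ∀ (k h0 : ℕ) (h : Fin k → ℕ), 1 ≤ k → Function.Injective h → (∀ j, h j ≠ h0) →
  ∀ ε : ℝ, 0 < ε → ∃ δ : ℝ, 0 < δ ∧ ∃ X0 : ℕ, ∀ X : ℕ, X0 ≤ X →
    ∀ b : ℕ → ℂ, (∀ l, ‖b l‖ ≤ 1) → ∀ G : (Fin k → ℕ) → ℂ, (∀ l, ‖G l‖ ≤ 1) →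
      (∀ l l' : Fin k → ℕ, ‖G l - G l'‖ ≤ δ * ∑ j, |(l j : ℝ) - l' j|) →
      ‖(∑ n ∈ Ioc 0 X, b (ArithmeticFunction.cardFactors (n + h0)) *
            G (fun j => ArithmeticFunction.cardFactors (n + h j))) / (X : ℂ) -
        ((∑ n ∈ Ioc 0 X, b (ArithmeticFunction.cardFactors n)) / (X : ℂ)) *
          ((∑ m ∈ Fintype.piFinset (fun _ : Fin k => Ioc 0 X),
            G (fun j => ArithmeticFunction.cardFactors (m j))) / (X : ℂ) ^ k)‖ ≤ ε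

/-- MEANS: the Liouville and Moebius functions have mean zero in every residue class -/
def MEANS : Prop := ∀ q r : ℕ, 1 ≤ q →
  Tendsto (fun X : ℕ => (∑ n ∈ (Ioc 0 X).filter (fun n => n ≡ r [MOD q]),
    (-1 : ℂ) ^ (ArithmeticFunction.cardFactors n)) / (X : ℂ)) atTop (nhds 0) ∧
  Tendsto (fun X : ℕ => (∑ n ∈ (Ioc 0 X).filter (fun n => n ≡ r [MOD q]),
    ((ArithmeticFunction.moebius n : ℤ) : ℂ)) / (X : ℂ)) atTop (nhds 0)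

/-- CH: the Liouville function at one shift against every bounded function of the `X^(1/A)`-smooth
parts at other shifts -/
def CH : Prop := ∀ (k h0 : ℕ) (h : Fin k → ℕ), 1 ≤ k → Function.Injective h → (∀ j, h j ≠ h0) →
  ∀ ε : ℝ, 0 < ε → ∃ A X0 : ℕ, 1 ≤ A ∧ ∀ X : ℕ, X0 ≤ X → ∀ y : ℕ, y ^ A ≤ X →
    ∀ Φ : (Fin k → ℕ) → ℂ, (∀ d, ‖Φ d‖ ≤ 1) →
      ‖∑ n ∈ Ioc 0 X, ((-1 : ℂ) ^ (ArithmeticFunction.cardFactors (n + h0))) *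
        Φ (fun j => sm 0 y (n + h j))‖ ≤ ε * X ∧
      ‖∑ n ∈ Ioc 0 X, ((ArithmeticFunction.moebius (n + h0) : ℤ) : ℂ) *
        Φ (fun j => sm 0 y (n + h j))‖ ≤ ε * X

end Pool.Agent.W208.TL
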