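import Pool.Agent.W208.TL.St
import Pool.Agent.W479.TLClaim
import Pool.Agent.W975.TLTail
import Pool.Agent.W591.TL.Law
import Pool.Agent.W699.TLKat
import Pool.Agent.W290.TL.Near
import Pool.Agent.W690.TL.Uell
import Pool.Agent.W397.TL.ELL
import Pool.Agent.W883.TL.Om
import Pool.Agent.W15.TL.CH
import Pool.Agent.W597.TLMEANS

/-! Assembly of project TL -/

set_option autoImplicit false

namespace Pool.Agent.W208.TL

theorem ST_all : ST :=
  st Pool.Agent.W699.TLKat.kat
    (Pool.Agent.W479.TLClaim.claim Pool.Agent.W591.TL.law Pool.Agent.W975.TL.tail)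

theorem UELL_all : UELL := Pool.Agent.W690.TL.uell ST_all Pool.Agent.W290.TL.near

theorem ELL_all : ELL := Pool.Agent.W397.TL.ell UELL_all

theorem OM_all : OM := Pool.Agent.W883.TL.om ST_all

end Pool.Agent.W208.TL
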