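import Pool.Agent.W208.TL.Stm

/-! Basic facts for the structure theorem -/

set_option autoImplicit false

namespace Pool.Agent.W208.TL

open Finset

theorem mem_PP {w y l : ℕ} : l ∈ PP w y ↔ (w < l ∧ l ≤ y) ∧ l.Prime := by
  unfold PP; rw [mem_filter, mem_Ioc]

theorem sm_split {w y : ℕ} (h : w ≤ y) (n : ℕ) : sm 0 y n = sm 0 w n * sm w y n := by
  unfold sm
  rw [← prod_union]
  · apply prod_congr _ fun _ _ => rfl
    ext l
    rw [mem_union, mem_PP, mem_PP, mem_PP]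
    constructor
    · rintro ⟨⟨h1, h2⟩, h3⟩
      by_cases h4 : l ≤ w
      · exact Or.inl ⟨⟨h1, h4⟩, h3⟩
      · exact Or.inr ⟨⟨by omega, h2⟩, h3⟩
    · rintro (⟨⟨h1, h2⟩, h3⟩ | ⟨⟨h1, h2⟩, h3⟩)
      · exact ⟨⟨h1, by omega⟩, h3⟩
      · exact ⟨⟨by omega, h2⟩, h3⟩
  · rw [disjoint_left]
    intro l h1 h2
    rw [mem_PP] at h1 h2
    omega

/-- the modulus -/
def QQ (w V : ℕ) : ℕ := (∏ l ∈ PP 0 w, l) ^ V

theorem QQ_pos (w V : ℕ) : 1 ≤ QQ w V :=
  Nat.pos_of_ne_zero (pow_ne_zero _ (prod_ne_zero_iff.2 fun _ hl => (mem_PP.1 hl).2.ne_zero))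

theorem pow_dvd_QQ {w V l : ℕ} (hl : l ∈ PP 0 w) : l ^ V ∣ QQ w V := by
  unfold QQ
  exact pow_dvd_pow_of_dvd (dvd_prod_of_mem _ hl) V

theorem QQ_primes {w V l : ℕ} (hl : l.Prime) (h : l ∣ QQ w V) : l ∈ PP 0 w := by
  unfold QQ at h
  have h1 := hl.dvd_of_dvd_pow h
  rw [hl.prime.dvd_finsetProd_iff] at h1
  obtain ⟨m, hm, hd⟩ := h1
  rw [(Nat.prime_dvd_prime_iff_eq hl (mem_PP.1 hm).2).1 hd]
  exact hm

theorem QQ_fact {w V l : ℕ} (hl : l ∈ PP 0 w) : (QQ w V).factorization l = V := by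
  unfold QQ
  rw [Nat.factorization_pow]
  have h0 : ∀ m ∈ PP 0 w, m ≠ 0 := fun m hm => (mem_PP.1 hm).2.ne_zero
  rw [Nat.factorization_prod h0]
  simp only [Finsupp.coe_smul, Finsupp.coe_finsetSum, Pi.smul_apply, Finset.sum_apply, smul_eq_mul]
  rw [sum_eq_single l]
  · rw [Nat.Prime.factorization_self (mem_PP.1 hl).2, mul_one]
  · intro m hm hne
    rw [Nat.Prime.factorization (mem_PP.1 hm).2, Finsupp.single_apply, if_neg hne]
  · intro h
    exact absurd hl h

theorem gcd_QQ {w V n : ℕ} (h : ∀ l ∈ PP 0 w, ¬ l ^ V ∣ n) : Nat.gcd n (QQ w V) = sm 0 w n := by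
  by_cases hn : n = 0
  · subst hn
    have h1 : PP 0 w = ∅ := by
      rw [eq_empty_iff_forall_notMem]
      intro l hl
      exact h l hl (dvd_zero _)
    unfold sm QQ
    rw [h1]
    simp
  have hQ : QQ w V ≠ 0 := by have := QQ_pos w V; omega
  have hg : Nat.gcd n (QQ w V) ≠ 0 := Nat.gcd_ne_zero_left hn
  have hs : sm 0 w n ≠ 0 := by
    unfold sm
    exact prod_ne_zero_iff.2 fun l hl => pow_ne_zero _ (mem_PP.1 hl).2.ne_zero
  apply Nat.eq_of_factorization_eq hg hs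
  intro p
  rw [Nat.factorization_gcd hn hQ, Finsupp.inf_apply]
  have h2 : (sm 0 w n).factorization p = if p ∈ PP 0 w then n.factorization p else 0 := by
    unfold sm
    rw [Nat.factorization_prod (fun l hl => pow_ne_zero _ (mem_PP.1 hl).2.ne_zero)]
    simp only [Finsupp.coe_finsetSum, Finset.sum_apply, Nat.factorization_pow, Finsupp.coe_smul,
      Pi.smul_apply, smul_eq_mul]
    split_ifs with hp
    · rw [sum_eq_single p]
      · rw [Nat.Prime.factorization_self (mem_PP.1 hp).2, mul_one]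
      · intro m hm hne
        rw [Nat.Prime.factorization (mem_PP.1 hm).2, Finsupp.single_apply, if_neg hne, mul_zero]
      · intro h'
        exact absurd hp h'
    · apply sum_eq_zero
      intro m hm
      have hne : m ≠ p := by rintro rfl; exact hp hm
      rw [Nat.Prime.factorization (mem_PP.1 hm).2, Finsupp.single_apply, if_neg hne, mul_zero]
  rw [h2]
  split_ifs with hp
  · rw [QQ_fact hp]
    apply min_eq_left
    by_contra hlt
    push Not at hlt
    apply h p hp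
    exact (Nat.Prime.pow_dvd_iff_le_factorization (mem_PP.1 hp).2 hn).2 hlt.le
  · have : (QQ w V).factorization p = 0 := by
      by_cases hpp : p.Prime
      · exact Nat.factorization_eq_zero_of_not_dvd fun hd => hp (QQ_primes hpp hd)
      · exact Nat.factorization_eq_zero_of_not_prime _ hpp
    rw [this]
    simp

theorem lf_mul (α : ℤ) (p m : ℕ) : lf 1 α (p * m) = lf p α m := by
  unfold lf
  push_cast
  ring_nf

theorem lf_mod {p Q m b : ℕ} (a : ℤ) (h : m ≡ b [MOD Q]) :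
    ((p : ℤ) * m + a) ≡ ((p : ℤ) * b + a) [ZMOD Q] := by
  have h1 : (m : ℤ) ≡ b [ZMOD Q] := (Int.natCast_modEq_iff).2 h
  exact (h1.mul_left p).add_right a

theorem gcd_lf {p Q m b : ℕ} (a : ℤ) (h : m ≡ b [MOD Q]) :
    Nat.gcd (lf p a m) Q = Nat.gcd (lf p a b) Q := by
  have h1 := lf_mod (p := p) a h
  have h2 : Int.gcd ((p : ℤ) * m + a) Q = Int.gcd ((p : ℤ) * b + a) Q := by
    obtain ⟨c, hc⟩ := h1.dvd
    have h3 : (p : ℤ) * b + a = (p : ℤ) * m + a + Q * c := by linarith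
    rw [h3, Int.gcd_add_mul_left_left]
  unfold lf
  rw [Int.gcd_eq_natAbs, Int.gcd_eq_natAbs, Int.natAbs_natCast] at h2
  exact h2

theorem dvd_lf {p Q m b d : ℕ} (a : ℤ) (h : m ≡ b [MOD Q]) (hd : d ∣ Q) :
    d ∣ lf p a m ↔ d ∣ lf p a b := by
  have h1 := (lf_mod (p := p) a h).of_dvd (Int.natCast_dvd_natCast.2 hd)
  unfold lf
  rw [← Int.natCast_dvd, ← Int.natCast_dvd]
  constructor
  · intro h2
    have e : ((p : ℤ) * b + a) = ((p : ℤ) * b + a - ((p : ℤ) * m + a)) + ((p : ℤ) * m + a) := by ring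
    rw [e]
    exact dvd_add h1.dvd h2
  · intro h2
    have e : ((p : ℤ) * m + a) = ((p : ℤ) * m + a - ((p : ℤ) * b + a)) + ((p : ℤ) * b + a) := by ring
    rw [e]
    exact dvd_add h1.symm.dvd h2

theorem mu_nonneg (w y d : ℕ) : 0 ≤ mu w y d := by
  unfold mu
  split_ifs
  · apply div_nonneg _ (Nat.cast_nonneg _)
    apply prod_nonneg
    intro l hl
    have h1 : (1 : ℝ) ≤ l := by exact_mod_cast (mem_PP.1 hl).2.one_le
    have : 1 / (l : ℝ) ≤ 1 := by rw [div_le_one (by linarith)]; exact h1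
    linarith
  · exact le_refl _

end Pool.Agent.W208.TL
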