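import Pool.Agent.W208.TL.Pair2

/-! The structure theorem -/

set_option autoImplicit false

namespace Pool.Agent.W208.TL

open Finset

theorem Q0_dvd {Q0 w V : ℕ} (h1 : 1 ≤ Q0) (hw : Q0 ≤ w) (hV : Q0 ≤ V) : Q0 ∣ QQ w V := by
  rw [← Nat.factorization_le_iff_dvd (by omega) (by have := QQ_pos w V; omega)]
  intro l
  by_cases hl : l.Prime ∧ l ∣ Q0
  · have : l ∈ PP 0 w := mem_PP.2 ⟨⟨hl.1.pos, (Nat.le_of_dvd h1 hl.2).trans hw⟩, hl.1⟩
    rw [QQ_fact this]
    exact ((Nat.factorization_lt l (by omega)).le).trans hV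
  · have : Q0.factorization l = 0 := by
      by_cases hp : l.Prime
      · exact Nat.factorization_eq_zero_of_not_dvd fun h => hl ⟨hp, h⟩
      · exact Nat.factorization_eq_zero_of_not_prime _ hp
    rw [this]
    exact Nat.zero_le _

theorem not_dvd_small {l w : ℕ} (h : w < l) {x : ℤ} (hx : x ≠ 0) (hxw : x.natAbs ≤ w) :
    ¬ (l : ℤ) ∣ x := by
  intro hd
  rw [Int.natCast_dvd] at hd
  have := Nat.le_of_dvd (Int.natAbs_pos.2 hx) hd
  omega

theorem indep_pq {k : ℕ} {a : Fin k → ℤ} (ha : Function.Injective a) (ha0 : ∀ j, a j ≠ 0)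
    {B S w p q : ℕ} (hB : ∀ j, (a j).natAbs ≤ B) (hp : p.Prime) (hq : q.Prime) (hpB : B < p)
    (hqB : B < q) (hpq : p ≠ q) (hpS : p ≤ S) (hqS : q ≤ S) (hw : 2 * S * B + S ≤ w) :
    Indep w (Fin.append (fun _ : Fin k => p) (fun _ : Fin k => q)) (Fin.append a a) := by
  have hsz : ∀ r s : ℕ, r ≤ S → s ≤ S → ∀ i j : Fin k,
      ((r : ℤ) * a j - (s : ℤ) * a i).natAbs ≤ w := by
    intro r s hr hs i j
    have h1 := Int.natAbs_sub_le ((r : ℤ) * a j) ((s : ℤ) * a i)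
    rw [Int.natAbs_mul, Int.natAbs_mul, Int.natAbs_natCast, Int.natAbs_natCast] at h1
    have h2 : r * (a j).natAbs ≤ S * B := Nat.mul_le_mul hr (hB j)
    have h3 : s * (a i).natAbs ≤ S * B := Nat.mul_le_mul hs (hB i)
    nlinarith
  have hcross : ∀ r s : ℕ, r.Prime → s.Prime → B < r → r ≠ s → ∀ i j : Fin k,
      ((r : ℤ) * a j - (s : ℤ) * a i) ≠ 0 := by
    intro r s hr hs hrB hrs i j h
    have h1 : (r : ℤ) ∣ (s : ℤ) * a i := ⟨a j, by linarith⟩
    have h2 : IsCoprime (r : ℤ) (s : ℤ) := by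
      rw [Nat.isCoprime_iff_coprime]
      exact (Nat.coprime_primes hr hs).2 hrs
    have h3 := h2.dvd_of_dvd_mul_left h1
    exact not_dvd_small hrB (ha0 i) (hB i) h3
  have hsame : ∀ r : ℕ, r.Prime → ∀ i j : Fin k, i ≠ j →
      ((r : ℤ) * a j - (r : ℤ) * a i) ≠ 0 := by
    intro r hr i j hij h
    have h1 : (r : ℤ) * (a j - a i) = 0 := by linarith
    rcases mul_eq_zero.1 h1 with h2 | h2
    · exact hr.ne_zero (by exact_mod_cast h2)
    · exact hij (ha (by linarith)).symm.symm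
  constructor
  · intro i
    refine Fin.addCases (fun i => ?_) (fun i => ?_) i
    · rw [Fin.append_left]; exact hp.one_le
    · rw [Fin.append_right]; exact hq.one_le
  · intro l hl hwl
    constructor
    · intro i
      refine Fin.addCases (fun i => ?_) (fun i => ?_) i
      · rw [Fin.append_left]
        intro h
        have := Nat.le_of_dvd hp.pos h
        omega
      · rw [Fin.append_right]
        intro h
        have := Nat.le_of_dvd hq.pos h
        omega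
    · intro i j
      refine Fin.addCases (fun i => ?_) (fun i => ?_) i
      · refine Fin.addCases (fun j => ?_) (fun j => ?_) j
        · intro hij
          simp only [Fin.append_left]
          exact not_dvd_small hwl (hsame p hp i j fun h => hij (by rw [h])) (hsz p p hpS hpS i j)
        · intro _
          simp only [Fin.append_left, Fin.append_right]
          exact not_dvd_small hwl (hcross p q hp hq hpB hpq i j) (hsz p q hpS hqS i j)
      · refine Fin.addCases (fun j => ?_) (fun j => ?_) j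
        · intro _
          simp only [Fin.append_left, Fin.append_right]
          exact not_dvd_small hwl (hcross q p hq hp hqB hpq.symm i j) (hsz q p hqS hpS i j)
        · intro hij
          simp only [Fin.append_right]
          exact not_dvd_small hwl (hsame q hq i j fun h => hij (by rw [h])) (hsz q q hqS hqS i j)

theorem indep_shift {J w : ℕ} (hw : J ≤ w) :
    Indep w (fun _ : Fin J => 1) (fun i : Fin J => ((i : ℕ) : ℤ)) := by
  constructor
  · intro i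
    exact le_refl _
  · intro l hl hwl
    constructor
    · intro i h
      exact hl.one_lt.ne' (Nat.dvd_one.1 h)
    · intro i j hij
      apply not_dvd_small hwl
      · intro h
        apply hij
        apply Fin.ext
        push_cast at h
        omega
      · have := i.2
        have := j.2
        push_cast
        omega

theorem box_one {J w y Z : ℕ} (i0 : Fin J) (ψ : ℕ → ℂ) :
    ∑ D ∈ box J Z, ψ (D i0) * ∏ i, (mu w y (D i) : ℂ) =
      (∑ d ∈ Icc 1 Z, ψ d * (mu w y d : ℂ)) * (∑ d ∈ Icc 1 Z, (mu w y d : ℂ)) ^ (J - 1) := by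
  have h1 := prod_univ_sum (fun _ : Fin J => Icc 1 Z)
    (fun i d => (if i = i0 then ψ d else 1) * (mu w y d : ℂ))
  have h2 : ∀ D : Fin J → ℕ, ∏ i, ((if i = i0 then ψ (D i) else 1) * (mu w y (D i) : ℂ)) =
      ψ (D i0) * ∏ i, (mu w y (D i) : ℂ) := by
    intro D
    rw [prod_mul_distrib]
    congr 1
    rw [prod_ite_eq' univ i0 (fun i => ψ (D i))]
    simp
  simp only [h2] at h1
  unfold box
  rw [← h1, ← mul_prod_erase univ _ (mem_univ i0)]
  simp only [if_true]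
  congr 1
  have h3 : ∀ i ∈ univ.erase i0, ∑ d ∈ Icc 1 Z, ((if i = i0 then ψ d else 1) * (mu w y d : ℂ)) =
      ∑ d ∈ Icc 1 Z, (mu w y d : ℂ) := by
    intro i hi
    apply sum_congr rfl
    intro d _
    rw [if_neg (ne_of_mem_erase hi), one_mul]
  rw [prod_congr rfl h3, prod_const, card_erase_of_mem (mem_univ i0), card_univ, Fintype.card_fin]

theorem pow_dist {s : ℝ} (hs : 0 ≤ s) (n : ℕ) : |s ^ n - 1| ≤ |s ^ (n + 1) - 1| := by
  rcases le_total s 1 with h | h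
  · have h1 : s ^ n ≤ 1 := pow_le_one₀ hs h
    have h2 : s ^ (n + 1) ≤ s ^ n := pow_le_pow_of_le_one hs h (Nat.le_succ n)
    rw [abs_of_nonpos (by linarith), abs_of_nonpos (by linarith)]
    linarith
  · have h1 : 1 ≤ s ^ n := one_le_pow₀ h
    have h2 : s ^ n ≤ s ^ (n + 1) := pow_le_pow_right₀ h (Nat.le_succ n)
    rw [abs_of_nonneg (by linarith), abs_of_nonneg (by linarith)]
    linarith

theorem st (hK : KAT) (hC : CLAIM) : ST := by
  intro k a hk ha ha0 Q0 hQ0 ε hε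
  obtain ⟨B, hBdef⟩ : ∃ B : ℕ, B = ∑ j, (a j).natAbs := ⟨_, rfl⟩
  have hB : ∀ j, (a j).natAbs ≤ B := by
    intro j
    rw [hBdef]
    exact single_le_sum (f := fun j => (a j).natAbs) (fun _ _ => Nat.zero_le _) (mem_univ j)
  obtain ⟨P, hP, δ, hδ0, hδ1, N0, hKat⟩ := hK (ε / 2) B (by linarith)
  obtain ⟨S, hSdef⟩ : ∃ S : ℕ, S = ∑ p ∈ P, p := ⟨_, rfl⟩
  have hS : ∀ p ∈ P, p ≤ S := by
    intro p hp
    rw [hSdef]
    exact single_le_sum (f := fun p => p) (fun _ _ => Nat.zero_le _) hp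
  obtain ⟨ε1, hε1, h1δ, h1ε, h1h⟩ : ∃ ε1 : ℝ, 0 < ε1 ∧ ε1 ≤ δ / 3 ∧ ε1 ≤ ε / 3 ∧ ε1 ≤ 1 / 2 := by
    refine ⟨min (min (δ / 3) (ε / 3)) (1 / 2), ?_, ?_, ?_, ?_⟩
    · exact lt_min (lt_min (by linarith) (by linarith)) (by norm_num)
    · exact (min_le_left _ _).trans (min_le_left _ _)
    · exact (min_le_left _ _).trans (min_le_right _ _)
    · exact min_le_right _ _
  obtain ⟨K1, K2, w0, hK1, hK2, hcl⟩ := hC (k + k) (by omega) ε1 hε1
  obtain ⟨w, hwdef⟩ : ∃ w : ℕ, w = w0 + (k + k) + Q0 + (2 * S * B + S) := ⟨_, rfl⟩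
  obtain ⟨V0, hV0⟩ := pow_unbounded_of_one_lt (2 * (k : ℝ) * w / ε1) (by norm_num : (1 : ℝ) < 2)
  obtain ⟨V, hVdef⟩ : ∃ V : ℕ, V = V0 + Q0 := ⟨_, rfl⟩
  have hV1 : 1 ≤ V := by omega
  have hVw : 2 * (k : ℝ) * w ≤ ε1 * 2 ^ V := by
    rw [div_lt_iff₀ hε1] at hV0
    have h1 : (2 : ℝ) ^ V0 ≤ 2 ^ V := pow_le_pow_right₀ (by norm_num) (by omega)
    have h2 := mul_le_mul_of_nonneg_right h1 hε1.le
    linarith
  have hQ0d : Q0 ∣ QQ w V := Q0_dvd hQ0 (by omega) (by omega)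
  obtain ⟨y1, hy1⟩ := hcl w (QQ w V) (by omega) (QQ_pos w V)
    (fun l hl hd => (mem_PP.1 (QQ_primes hl hd)).1.2)
  obtain ⟨y2, hy2⟩ := hcl w 1 (by omega) le_rfl
    (fun l hl hd => absurd (Nat.dvd_one.1 hd) hl.one_lt.ne')
  obtain ⟨y3, hy3⟩ := exists_nat_gt (1 / δ)
  refine ⟨QQ w V, w, K1, K2 + 1, y1 + y2 + y3 + w + N0 + QQ w V + 2, hQ0d, QQ_pos w V, hK1,
    by omega, ?_⟩
  intro y X hy hX
  have hy0 : 1 ≤ y := by omega
  have hyK2 : y ≤ y ^ K2 := Nat.le_self_pow (by omega) y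
  have hX2 : y ^ K2 ≤ X := (Nat.pow_le_pow_right hy0 (Nat.le_succ K2)).trans hX
  have hyX : y ≤ X := hyK2.trans hX2
  have hX0 : 0 < X := by omega
  have hXr : (0 : ℝ) < X := by exact_mod_cast hX0
  have hδy : 1 ≤ δ * y := by
    have h1 : (y3 : ℝ) ≤ y := by exact_mod_cast (by omega : y3 ≤ y)
    rw [div_lt_iff₀ hδ0] at hy3
    nlinarith
  obtain ⟨hs1, hcl1⟩ := hy1 y (by omega)
  obtain ⟨s, hsdef⟩ : ∃ s : ℝ, s = ∑ d ∈ Icc 1 (y ^ K1), mu w y d := ⟨_, rfl⟩
  have hsC : ∑ d ∈ Icc 1 (y ^ K1), (mu w y d : ℂ) = (s : ℂ) := by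
    rw [hsdef]
    push_cast
    rfl
  rw [← hsdef] at hs1
  have hs2 := abs_le.1 hs1
  have hs0 : 0 < s := by linarith [hs2.1]
  have hsne : ∑ d ∈ Icc 1 (y ^ K1), (mu w y d : ℂ) ≠ 0 := by
    rw [hsC]
    exact_mod_cast hs0.ne'
  have hwy : w ≤ y := by omega
  refine ⟨?_, ?_, ?_⟩
  · rw [← hsdef]
    linarith
  · -- the law of one part
    intro ψ hψ
    have hI := indep_shift (J := k + k) (w := w) (by omega)
    have i0 : Fin (k + k) := ⟨0, by omega⟩
    have hcl2 := (hy2 y (by omega)).2 _ _ hI 0 X hX2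
    have hcl3 : ∀ ψ : ℕ → ℂ, (∀ d, ‖ψ d‖ ≤ 1) → ‖(∑ m ∈ Ioc 0 X, ψ (sm w y m)) / (X : ℂ) -
        (∑ d ∈ Icc 1 (y ^ K1), ψ d * (mu w y d : ℂ)) * (s : ℂ) ^ (k + k - 1)‖ ≤ ε1 := by
      intro ψ hψ
      have h1 := hcl2 (fun D => ψ (D ⟨0, by omega⟩)) (fun d => hψ _)
      rw [box_one ⟨0, by omega⟩ ψ, hsC] at h1
      have h2 : (Ioc 0 X).filter (fun m => m ≡ 0 [MOD 1]) = Ioc 0 X := by
        apply filter_true_of_mem
        intro m _
        exact Nat.modEq_one
      rw [h2] at h1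
      have h3 : ∀ m : ℕ, lf 1 (((⟨0, by omega⟩ : Fin (k + k)) : ℕ) : ℤ) m = m := by
        intro m
        unfold lf
        simp
      simp only [h3] at h1
      have h4 : ((1 : ℕ) : ℂ) / (X : ℂ) * ∑ m ∈ Ioc 0 X, ψ (sm w y m) =
        (∑ m ∈ Ioc 0 X, ψ (sm w y m)) / (X : ℂ) := by
        push_cast
        ring
      rw [h4] at h1
      exact h1
    have hXc : (X : ℂ) ≠ 0 := by exact_mod_cast hX0.ne'
    have h1 := hcl3 (fun _ => 1) (fun _ => by simp)
    simp only [one_mul, sum_const, Nat.card_Ioc, nsmul_eq_mul, mul_one, Nat.sub_zero] at h1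
    rw [div_self hXc, hsC, ← pow_succ' , show k + k - 1 + 1 = k + k by omega] at h1
    have h2 : |s ^ (k + k) - 1| ≤ ε1 := by
      have e : (1 : ℂ) - (s : ℂ) ^ (k + k) = ((1 - s ^ (k + k) : ℝ) : ℂ) := by push_cast; rfl
      rw [e, Complex.norm_real, Real.norm_eq_abs, abs_sub_comm] at h1
      exact h1
    have h3 : |s ^ (k + k - 1) - 1| ≤ ε1 := by
      have := pow_dist hs0.le (k + k - 1)
      rw [show k + k - 1 + 1 = k + k by omega] at this
      linarith
    have h4 := hcl3 ψ hψ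
    obtain ⟨T, hT⟩ : ∃ T : ℂ, T = ∑ d ∈ Icc 1 (y ^ K1), ψ d * (mu w y d : ℂ) := ⟨_, rfl⟩
    have h5 : ‖T‖ ≤ 3 / 2 := by
      have h6 : ‖T‖ ≤ s := by
        rw [hT, hsdef]
        refine (norm_sum_le _ _).trans (sum_le_sum fun d _ => ?_)
        rw [norm_mul, Complex.norm_real, Real.norm_of_nonneg (mu_nonneg _ _ _)]
        have := mul_le_mul_of_nonneg_right (hψ d) (mu_nonneg w y d)
        rwa [one_mul] at this
      linarith [hs2.2]
    rw [← hT] at h4 ⊢
    have h6 : ‖T * (s : ℂ) ^ (k + k - 1) - T‖ ≤ 3 / 2 * ε1 := by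
      have e : T * (s : ℂ) ^ (k + k - 1) - T = T * ((s ^ (k + k - 1) - 1 : ℝ) : ℂ) := by
        push_cast
        ring
      rw [e, norm_mul, Complex.norm_real, Real.norm_eq_abs]
      exact mul_le_mul h5 h3 (abs_nonneg _) (by norm_num)
    have h7 := norm_sub_le_norm_sub_add_norm_sub ((∑ m ∈ Ioc 0 X, ψ (sm w y m)) / (X : ℂ))
      (T * (s : ℂ) ^ (k + k - 1)) T
    linarith
  · -- the main statement
    intro Φ hΦ f hf ρ hρ hper
    have hmain := hKat X (by omega) (FF w y (y ^ K1) (QQ w V) a Φ ρ)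
      (fun n => FF_norm hΦ hρ n) ?_ f hf
    · have e : ∑ n ∈ Ioc 0 X, f n * (ρ n * (Φ (fun j => sm 0 y (lf 1 (a j) n)) -
          cav w y (y ^ K1) Φ (fun j => Nat.gcd (lf 1 (a j) n) (QQ w V)))) =
          2 * ∑ n ∈ Ioc 0 X, f n * FF w y (y ^ K1) (QQ w V) a Φ ρ n := by
        rw [mul_sum]
        apply sum_congr rfl
        intro n _
        unfold FF
        ring
      rw [e, norm_mul]
      have : ‖(2 : ℂ)‖ = 2 := by norm_num
      rw [this]
      linarith
    · intro p hp q hq hpq M hM1 hM2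
      have hMr : ((y ^ K2 : ℕ) : ℝ) ≤ M := by
        have h1 : ((y ^ (K2 + 1) : ℕ) : ℝ) ≤ X := by exact_mod_cast hX
        push_cast at h1 ⊢
        rw [pow_succ] at h1
        have h2 : (0 : ℝ) ≤ (y : ℝ) ^ K2 := by positivity
        have h3 := mul_le_mul_of_nonneg_left h1 hδ0.le
        have h4 := mul_le_mul_of_nonneg_right hδy h2
        nlinarith
      have hMn : y ^ K2 ≤ M := by exact_mod_cast hMr
      have hpd : ∀ r ∈ P, ∀ j, ¬ (r : ℤ) ∣ a j := by
        intro r hr j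
        exact not_dvd_small (hP r hr).2 (ha0 j) (hB j)
      have hI := indep_pq ha ha0 hB (hP p hp).1 (hP q hq).1 (hP p hp).2 (hP q hq).2 hpq
        (hS p hp) (hS q hq) (by omega : 2 * S * B + S ≤ w)
      have hpair := pair (a := a) (w := w) (V := V) (Q0 := Q0) (p := p) (q := q) (Z := y ^ K1)
        (M := M) (y := y) (ε1 := ε1) hε1.le hQ0d hV1 (hP p hp).1 (hP q hq).1 (hpd p hp)
        (hpd q hq) hVw (fun b Ψ hΨ => hcl1 _ _ hI b M hMn Ψ hΨ) hsne hwy (by omega) hΦ hρ hper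
      refine hpair.trans ?_
      have h1 : (M : ℝ) ≤ X := by exact_mod_cast hM2
      have h2 : 3 * ε1 ≤ δ := by linarith
      exact mul_le_mul h2 h1 (Nat.cast_nonneg _) hδ0.le

end Pool.Agent.W208.TL
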