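import Pool.Agent.W208.TL.Omt
import Pool.Agent.W208.TL.St

/-! Independence of one exact `Ω` and of truncated `Ω` at the other shifts, main proof -/

set_option autoImplicit false

namespace Pool.Agent.W208.TL

open Finset Filter
open Pool.Agent.W883.TL (Om sum_box shift Om_dvd)

theorem kf_one : KF (fun _ => 1) :=
  ⟨fun _ => by simp, fun _ => 1, fun _ => 1, fun _ => by simp, fun _ => by simp,
    fun _ _ _ _ => by simp⟩

theorem omt (hST : ST) (hSI : SI) : OMT := by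
  intro k h0 h hk hinj hne ε hε
  obtain ⟨B, hB⟩ : ∃ B : ℝ, B = 3 * k * 4 ^ k := ⟨_, rfl⟩
  have hB0 : 0 ≤ B := by rw [hB]; positivity
  obtain ⟨C, hC⟩ : ∃ C : ℝ, C = 2 + B + 2 * (2 ^ k * (4 + B)) := ⟨_, rfl⟩
  have hC0 : 0 < C := by rw [hC]; positivity
  obtain ⟨ε1, h1, h1h, h1C⟩ : ∃ ε1 : ℝ, 0 < ε1 ∧ ε1 ≤ 1 / 2 ∧ C * ε1 ≤ ε := by
    refine ⟨min (1 / 2) (ε / C), lt_min (by norm_num) (by positivity), min_le_left _ _, ?_⟩
    calc C * min (1 / 2) (ε / C) ≤ C * (ε / C) := mul_le_mul_of_nonneg_left (min_le_right _ _) hC0.le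
      _ = ε := by field_simp
  obtain ⟨a, ha⟩ : ∃ a : Fin k → ℤ, a = fun j => (h j : ℤ) - h0 := ⟨_, rfl⟩
  have ainj : Function.Injective a := by
    intro i j hij
    apply hinj
    rw [ha] at hij
    have : (h i : ℤ) - h0 = (h j : ℤ) - h0 := hij
    omega
  have ane : ∀ j, a j ≠ 0 := by
    intro j hj
    apply hne j
    rw [ha] at hj
    have : (h j : ℤ) - h0 = 0 := hj
    omega
  obtain ⟨Q, w, K1, K, y0, -, hQ, hK1, hK, H⟩ := hST k a hk ainj ane 1 le_rfl ε1 h1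
  obtain ⟨y1, hy1⟩ := hSI w (Om Q) ε1 h1
  obtain ⟨N, hN⟩ := exists_nat_ge ((2 * (h0 : ℝ) + 2 * ∑ j, (h j : ℝ)) / ε1)
  refine ⟨K, max (max y0 y1) (max w (N + 1)), hK, ?_⟩
  intro y X hy hyX f hf G hG
  have hyy0 : y0 ≤ y := ((le_max_left _ _).trans (le_max_left _ _)).trans hy
  have hyy1 : y1 ≤ y := ((le_max_right _ _).trans (le_max_left _ _)).trans hy
  have hyN : N + 1 ≤ y := ((le_max_right _ _).trans (le_max_right _ _)).trans hy
  have hyX1 : y ≤ X := (Nat.le_self_pow (by omega) y).trans hyX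
  have hX0 : 0 < X := by omega
  have hXr : (0 : ℝ) < X := by exact_mod_cast hX0
  have hXc : (X : ℂ) ≠ 0 := by exact_mod_cast hX0.ne'
  have hbd : 2 * (h0 : ℝ) + 2 * ∑ j, (h j : ℝ) ≤ ε1 * X := by
    have e1 : ((2 * (h0 : ℝ) + 2 * ∑ j, (h j : ℝ)) / ε1) ≤ X :=
      hN.trans (by exact_mod_cast (by omega : N ≤ X))
    rw [div_le_iff₀ h1] at e1
    linarith
  have hsum0 : (0 : ℝ) ≤ ∑ j, (h j : ℝ) := Finset.sum_nonneg fun j _ => Nat.cast_nonneg _
  obtain ⟨s1, -, s3⟩ := H y X hyy0 hyX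
  obtain ⟨Z, hZ⟩ : ∃ Z : ℕ, Z = y ^ K1 := ⟨_, rfl⟩
  rw [← hZ] at s1 s3
  have hSI1 : ∀ g : ℕ → ℂ, (∀ l, ‖g l‖ ≤ 1) → ∀ l : ℕ, l ≤ Om Q →
      ‖∑ d ∈ Icc 1 Z, g (Om d + l) * (mu w y d : ℂ) - ∑ d ∈ Icc 1 Z, g (Om d) * (mu w y d : ℂ)‖
        ≤ 3 * ε1 := by
    intro g hg l hl
    refine (hy1 y Z hyy1 ε1 s1 g hg l hl).trans (le_of_eq (by ring))
  obtain ⟨s, hs⟩ : ∃ s : ℝ, s = ∑ d ∈ Icc 1 Z, mu w y d := ⟨_, rfl⟩
  have hsC : ∑ d ∈ Icc 1 Z, (mu w y d : ℂ) = (s : ℂ) := by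
    rw [hs]
    push_cast
    rfl
  rw [← hs] at s1
  have hs2 : s ≤ 2 := by
    have := (abs_le.1 s1).2
    linarith
  have hshalf : 1 / 2 ≤ s := by
    have := (abs_le.1 s1).1
    linarith
  have hs0 : 0 < s := by linarith
  have hsne : (s : ℂ) ≠ 0 := by exact_mod_cast hs0.ne'
  -- the main estimate
  have main : ∀ f : ℕ → ℂ, KF f → ∀ G : (Fin k → ℕ) → ℂ, (∀ l, ‖G l‖ ≤ 1) →
      ‖∑ n ∈ Ioc 0 X, f (n + h0) * G (fun j => Om (sm 0 y (n + h j))) -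
        (∑ n ∈ Ioc 0 X, f n) * cav w y Z (fun s => G (fun j => Om (s j))) (fun _ => 1)‖ ≤
      2 * h0 + ε1 * X + (B * ε1) * X := by
    intro f hf G hG
    set Φ : (Fin k → ℕ) → ℂ := fun s => G (fun j => Om (s j)) with hΦ
    have hΦ1 : ∀ d, ‖Φ d‖ ≤ 1 := fun d => hG _
    set κ : ℂ := cav w y Z Φ (fun _ => 1) with hκ
    have t3 := s3 Φ hΦ1 f hf (fun _ => 1) (fun _ => by simp) (fun _ => rfl)
    obtain ⟨F, hF⟩ : ∃ F : ℕ → ℂ, F = fun n => f n * Φ (fun j => sm 0 y (lf 1 (a j) n)) := ⟨_, rfl⟩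
    have hF1 : ∀ n, ‖F n‖ ≤ 1 := by
      intro n
      rw [hF]
      simp only [norm_mul]
      calc ‖f n‖ * ‖Φ (fun j => sm 0 y (lf 1 (a j) n))‖ ≤ 1 * 1 :=
            mul_le_mul (hf.1 n) (hΦ1 _) (norm_nonneg _) zero_le_one
        _ = 1 := one_mul 1
    have u0 : ∑ n ∈ Ioc 0 X, f (n + h0) * G (fun j => Om (sm 0 y (n + h j))) =
        ∑ n ∈ Ioc 0 X, F (n + h0) := by
      refine Finset.sum_congr rfl fun n _ => ?_
      rw [hF]
      simp only [hΦ]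
      have : ∀ j, lf 1 (a j) (n + h0) = n + h j := by
        intro j
        unfold lf
        rw [ha]
        push_cast
        have : (1 : ℤ) * (n + h0) + (h j - h0) = ((n + h j : ℕ) : ℤ) := by
          push_cast
          ring
        rw [this, Int.natAbs_natCast]
      simp only [this]
    have u1 : ‖∑ n ∈ Ioc 0 X, F (n + h0) - ∑ n ∈ Ioc 0 X, F n‖ ≤ 2 * h0 := shift F hF1 X h0
    have u3 : ‖∑ n ∈ Ioc 0 X, F n -
        ∑ n ∈ Ioc 0 X, f n * cav w y Z Φ (fun j => Nat.gcd (lf 1 (a j) n) Q)‖ ≤ ε1 * X := by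
      rw [← Finset.sum_sub_distrib]
      refine le_trans (le_of_eq ?_) t3
      congr 1
      refine Finset.sum_congr rfl fun n _ => ?_
      rw [hF]
      simp only
      ring
    have u4 : ‖∑ n ∈ Ioc 0 X, f n * cav w y Z Φ (fun j => Nat.gcd (lf 1 (a j) n) Q) -
        ∑ n ∈ Ioc 0 X, f n * κ‖ ≤ (B * ε1) * X := by
      rw [← Finset.sum_sub_distrib]
      refine (norm_sum_le _ _).trans ?_
      have v1 : ∀ n ∈ Ioc 0 X, ‖f n * cav w y Z Φ (fun j => Nat.gcd (lf 1 (a j) n) Q) - f n * κ‖ ≤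
          B * ε1 := by
        intro n _
        rw [← mul_sub, norm_mul]
        have v2 : ‖cav w y Z Φ (fun j => Nat.gcd (lf 1 (a j) n) Q) - κ‖ ≤ B * ε1 := by
          rw [hκ]
          unfold cav
          rw [hsC, ← sub_div, norm_div, norm_pow, Complex.norm_real, Real.norm_eq_abs,
            abs_of_pos hs0, div_le_iff₀ (pow_pos hs0 k)]
          have v3 := shiftG Z w y (Om Q) (3 * ε1) (by linarith) (by rw [← hs]; exact hs2) hSI1 k G hG
            (fun j => Om (Nat.gcd (lf 1 (a j) n) Q))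
            (fun j => Om_dvd (by omega) (Nat.gcd_dvd_right _ _))
          have e1 : ∑ d ∈ box k Z, Φ (fun j => Nat.gcd (lf 1 (a j) n) Q * d j) *
              ∏ j, (mu w y (d j) : ℂ) =
              ∑ d ∈ box k Z, G (fun j => Om (d j) + Om (Nat.gcd (lf 1 (a j) n) Q)) *
              ∏ j, (mu w y (d j) : ℂ) := by
            refine Finset.sum_congr rfl fun d hd => ?_
            simp only [hΦ]
            congr 2
            ext j
            have hd0 : d j ≠ 0 := by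
              unfold box at hd
              rw [Fintype.mem_piFinset] at hd
              have := (Finset.mem_Icc.1 (hd j)).1
              omega
            have hA0 : Nat.gcd (lf 1 (a j) n) Q ≠ 0 := Nat.gcd_ne_zero_right (by omega)
            have := ArithmeticFunction.cardFactors_mul hA0 hd0
            show Om (Nat.gcd (lf 1 (a j) n) Q * d j) = Om (d j) + Om (Nat.gcd (lf 1 (a j) n) Q)
            unfold Om
            omega
          have e2 : ∑ d ∈ box k Z, Φ (fun j => 1 * d j) * ∏ j, (mu w y (d j) : ℂ) =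
              ∑ d ∈ box k Z, G (fun j => Om (d j)) * ∏ j, (mu w y (d j) : ℂ) := by
            refine Finset.sum_congr rfl fun d hd => ?_
            simp only [hΦ, one_mul]
          rw [e1, e2]
          refine v3.trans ?_
          have e3 : (1 / 2 : ℝ) ^ k ≤ s ^ k := pow_le_pow_left₀ (by norm_num) hshalf k
          have e4 : B * ε1 * (1 / 2 : ℝ) ^ k = k * (3 * ε1) * 2 ^ k := by
            have e5 : (4 : ℝ) ^ k = 2 ^ k * 2 ^ k := by rw [← mul_pow]; norm_num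
            have e6 : (2 : ℝ) ^ k * (1 / 2) ^ k = 1 := by rw [← mul_pow]; norm_num
            rw [hB, e5]
            calc 3 * (k : ℝ) * (2 ^ k * 2 ^ k) * ε1 * (1 / 2) ^ k
                = 3 * k * 2 ^ k * ε1 * (2 ^ k * (1 / 2) ^ k) := by ring
              _ = k * (3 * ε1) * 2 ^ k := by rw [e6]; ring
          rw [← e4]
          exact mul_le_mul_of_nonneg_left e3 (by positivity)
        calc ‖f n‖ * ‖cav w y Z Φ (fun j => Nat.gcd (lf 1 (a j) n) Q) - κ‖ ≤ 1 * (B * ε1) :=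
              mul_le_mul (hf.1 n) v2 (norm_nonneg _) zero_le_one
          _ = _ := one_mul _
      refine (Finset.sum_le_card_nsmul _ _ _ v1).trans (le_of_eq ?_)
      rw [nsmul_eq_mul, Nat.card_Ioc]
      simp only [Nat.sub_zero]
      ring
    rw [u0]
    have e1 : ∑ n ∈ Ioc 0 X, F (n + h0) - (∑ n ∈ Ioc 0 X, f n) * κ =
        (∑ n ∈ Ioc 0 X, F (n + h0) - ∑ n ∈ Ioc 0 X, F n) +
        (∑ n ∈ Ioc 0 X, F n -
          ∑ n ∈ Ioc 0 X, f n * cav w y Z Φ (fun j => Nat.gcd (lf 1 (a j) n) Q)) +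
        (∑ n ∈ Ioc 0 X, f n * cav w y Z Φ (fun j => Nat.gcd (lf 1 (a j) n) Q) -
          ∑ n ∈ Ioc 0 X, f n * κ) := by
      rw [Finset.sum_mul]
      ring
    rw [e1]
    exact (norm_add₃_le).trans (add_le_add (add_le_add u1 u3) u4)
  -- one coordinate
  obtain ⟨η, hη⟩ : ∃ η : ℝ, η = (4 + B) * ε1 := ⟨_, rfl⟩
  have hη0 : 0 ≤ η := by rw [hη]; positivity
  have one : ∀ g : ℕ → ℂ, (∀ l, ‖g l‖ ≤ 1) →
      ‖(∑ m ∈ Ioc 0 X, g (Om (sm 0 y m))) / (X : ℂ) - ∑ d ∈ Icc 1 Z, g (Om d) * (mu w y d : ℂ)‖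
        ≤ η := by
    intro g hg
    have j0 : Fin k := ⟨0, by omega⟩
    have m1 := main (fun _ => 1) kf_one (fun l => g (l j0)) (fun l => hg _)
    have hκ : cav w y Z (fun s => g (Om (s j0))) (fun _ => 1) * (s : ℂ) =
        ∑ d ∈ Icc 1 Z, g (Om d) * (mu w y d : ℂ) := by
      unfold cav
      simp only [one_mul]
      rw [box_one j0 (fun d => g (Om d)), hsC]
      have e1 : (s : ℂ) ^ k = (s : ℂ) ^ (k - 1) * s := by
        rw [← pow_succ]
        congr 1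
        omega
      rw [e1]
      have e2 : (s : ℂ) ^ (k - 1) ≠ 0 := pow_ne_zero _ hsne
      field_simp
    have hκ1 : ‖cav w y Z (fun s => g (Om (s j0))) (fun _ => 1)‖ ≤ 1 :=
      Pool.Agent.W883.TL.cav_norm k w y Z (fun s => g (Om (s j0))) (fun _ => hg _) (by rw [← hs]; exact hs0) _
    set κ : ℂ := cav w y Z (fun s => g (Om (s j0))) (fun _ => 1) with hκd
    have m2 := shift (fun n => g (Om (sm 0 y n))) (fun n => hg _) X (h j0)
    have m3 : ‖∑ n ∈ Ioc 0 X, g (Om (sm 0 y n)) - (X : ℂ) * κ‖ ≤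
        2 * h j0 + (2 * h0 + ε1 * X + (B * ε1) * X) := by
      have e1 : ∑ n ∈ Ioc 0 X, g (Om (sm 0 y n)) - (X : ℂ) * κ =
        -(∑ n ∈ Ioc 0 X, g (Om (sm 0 y (n + h j0))) - ∑ n ∈ Ioc 0 X, g (Om (sm 0 y n))) +
        (∑ n ∈ Ioc 0 X, 1 * g (Om (sm 0 y (n + h j0))) - (∑ n ∈ Ioc 0 X, 1) * κ) := by
        simp only [one_mul, Finset.sum_const, Nat.card_Ioc, nsmul_eq_mul, mul_one, Nat.sub_zero]
        ring
      rw [e1]
      refine (norm_add_le _ _).trans ?_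
      rw [norm_neg]
      exact add_le_add m2 m1
    have m4 : (h j0 : ℝ) ≤ ∑ j, (h j : ℝ) :=
      Finset.single_le_sum (f := fun j => (h j : ℝ)) (fun j _ => Nat.cast_nonneg _)
        (Finset.mem_univ j0)
    have m5 : ‖(∑ m ∈ Ioc 0 X, g (Om (sm 0 y m))) / (X : ℂ) - κ‖ ≤ (2 + B) * ε1 := by
      have e1 : (∑ m ∈ Ioc 0 X, g (Om (sm 0 y m))) / (X : ℂ) - κ =
          (∑ n ∈ Ioc 0 X, g (Om (sm 0 y n)) - (X : ℂ) * κ) / (X : ℂ) := by
        field_simp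
      rw [e1, norm_div, Complex.norm_natCast, div_le_iff₀ hXr]
      refine m3.trans ?_
      have : (2 + B) * ε1 * X = ε1 * X + ε1 * X + (B * ε1) * X := by ring
      rw [this]
      linarith
    have m6 : ‖κ - ∑ d ∈ Icc 1 Z, g (Om d) * (mu w y d : ℂ)‖ ≤ ε1 := by
      rw [← hκ]
      have e1 : κ - κ * (s : ℂ) = κ * ((1 - s : ℝ) : ℂ) := by
        push_cast
        ring
      rw [e1, norm_mul, Complex.norm_real, Real.norm_eq_abs, abs_sub_comm]
      calc ‖κ‖ * |s - 1| ≤ 1 * ε1 := mul_le_mul hκ1 s1 (abs_nonneg _) zero_le_one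
        _ = ε1 := one_mul _
    have m7 := norm_sub_le_norm_sub_add_norm_sub ((∑ m ∈ Ioc 0 X, g (Om (sm 0 y m))) / (X : ℂ)) κ
      (∑ d ∈ Icc 1 Z, g (Om d) * (mu w y d : ℂ))
    rw [hη]
    nlinarith
  have hs2' : ∑ d ∈ Icc 1 Z, mu w y d ≤ 2 := by rw [← hs]; exact hs2
  have w1 := replG X Z w y hX0 η hη0 (fun m => Om (sm 0 y m)) hs2' one k G hG
  have w2 := replG X Z w y hX0 η hη0 (fun m => Om (sm 0 y m)) hs2' one k (fun _ => 1)
    (fun _ => by simp)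
  obtain ⟨κ, hκ⟩ : ∃ κ : ℂ, κ = cav w y Z (fun s => G (fun j => Om (s j))) (fun _ => 1) := ⟨_, rfl⟩
  have hκ1 : ‖κ‖ ≤ 1 := by
    rw [hκ]
    exact Pool.Agent.W883.TL.cav_norm k w y Z _ (fun _ => hG _) (by rw [← hs]; exact hs0) _
  have m1 := main f hf G hG
  rw [← hκ] at m1
  set MG : ℂ := (∑ m ∈ Fintype.piFinset (fun _ : Fin k => Ioc 0 X),
    G (fun j => Om (sm 0 y (m j)))) / (X : ℂ) ^ k with hMG
  set P : ℂ := ∑ d ∈ box k Z, G (fun j => Om (d j)) * ∏ j, (mu w y (d j) : ℂ) with hP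
  have hsk : (∑ d ∈ box k Z, (1 : ℂ) * ∏ j, (mu w y (d j) : ℂ)) = ((s ^ k : ℝ) : ℂ) := by
    rw [hs, ← sum_box]
    push_cast
    simp
  have w3 : ‖(1 : ℂ) - ((s ^ k : ℝ) : ℂ)‖ ≤ 2 ^ k * η := by
    rw [hsk] at w2
    have : (∑ m ∈ Fintype.piFinset (fun _ : Fin k => Ioc 0 X), (1 : ℂ)) / (X : ℂ) ^ k = 1 := by
      rw [Finset.sum_const, Fintype.card_piFinset]
      simp only [Finset.prod_const, Finset.card_univ, Fintype.card_fin, Nat.card_Ioc, Nat.sub_zero,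
        nsmul_eq_mul, mul_one]
      push_cast
      exact div_self (pow_ne_zero k hXc)
    rwa [this] at w2
  have hκP : κ * ((s ^ k : ℝ) : ℂ) = P := by
    rw [hκ]
    unfold cav
    rw [hsC]
    have e1 : (s : ℂ) ^ k = ((s ^ k : ℝ) : ℂ) := by push_cast; rfl
    rw [e1, div_mul_cancel₀]
    · rw [hP]
      refine Finset.sum_congr rfl fun d _ => ?_
      simp only [one_mul]
    · exact_mod_cast (pow_pos hs0 k).ne'
  have w4 : ‖κ - MG‖ ≤ 2 * (2 ^ k * η) := by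
    have e1 : κ - MG = κ * (1 - ((s ^ k : ℝ) : ℂ)) - (MG - P) := by
      rw [← hκP]
      ring
    rw [e1]
    refine (norm_sub_le _ _).trans ?_
    rw [norm_mul]
    have e2 : ‖κ‖ * ‖(1 : ℂ) - ((s ^ k : ℝ) : ℂ)‖ ≤ 1 * (2 ^ k * η) :=
      mul_le_mul hκ1 w3 (norm_nonneg _) zero_le_one
    have e3 : ‖MG - P‖ ≤ 2 ^ k * η := w1
    linarith
  have u5 : ‖(∑ n ∈ Ioc 0 X, f n) * κ - (∑ n ∈ Ioc 0 X, f n) * MG‖ ≤ 2 * (2 ^ k * η) * X := by
    rw [← mul_sub, norm_mul]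
    have e1 : ‖∑ n ∈ Ioc 0 X, f n‖ ≤ X := by
      refine (norm_sum_le _ _).trans ?_
      refine (Finset.sum_le_card_nsmul _ _ _ (fun n _ => hf.1 n)).trans (le_of_eq ?_)
      simp
    calc ‖∑ n ∈ Ioc 0 X, f n‖ * ‖κ - MG‖ ≤ X * (2 * (2 ^ k * η)) :=
          mul_le_mul e1 w4 (norm_nonneg _) hXr.le
      _ = _ := by ring
  have fin1 := norm_sub_le_norm_sub_add_norm_sub
    (∑ n ∈ Ioc 0 X, f (n + h0) * G (fun j => Om (sm 0 y (n + h j))))
    ((∑ n ∈ Ioc 0 X, f n) * κ) ((∑ n ∈ Ioc 0 X, f n) * MG)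
  have e0 : (∑ n ∈ Ioc 0 X, f (n + h0) *
            G (fun j => ArithmeticFunction.cardFactors (sm 0 y (n + h j)))) / (X : ℂ) -
        ((∑ n ∈ Ioc 0 X, f n) / (X : ℂ)) *
          ((∑ m ∈ Fintype.piFinset (fun _ : Fin k => Ioc 0 X),
            G (fun j => ArithmeticFunction.cardFactors (sm 0 y (m j)))) / (X : ℂ) ^ k) =
      (∑ n ∈ Ioc 0 X, f (n + h0) * G (fun j => Om (sm 0 y (n + h j))) -
        (∑ n ∈ Ioc 0 X, f n) * MG) / (X : ℂ) := by
    rw [hMG]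
    ring
  rw [e0, norm_div, Complex.norm_natCast, div_le_iff₀ hXr]
  have z1 : C * ε1 * X ≤ ε * X := mul_le_mul_of_nonneg_right h1C hXr.le
  have z2 : C * ε1 * X = ε1 * X + ε1 * X + (B * ε1) * X + 2 * (2 ^ k * η) * X := by
    rw [hC, hη]
    ring
  linarith

end Pool.Agent.W208.TL
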