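import Pool.Agent.W208.TL.CoreA
import Pool.Agent.W208.TL.All

/-! The Liouville function at one linear form against functions of the smooth parts of others -/

set_option autoImplicit false

namespace Pool.Agent.W208.TL

open Finset Filter

theorem sm_mul {w y m n : ℕ} (hm : m ≠ 0) (hn : n ≠ 0) : sm w y (m * n) = sm w y m * sm w y n := by
  unfold sm
  rw [← prod_mul_distrib]
  apply prod_congr rfl
  intro l _
  rw [Nat.factorization_mul hm hn, Finsupp.add_apply, pow_add]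

theorem sm_pos (w y m : ℕ) : 0 < sm w y m := by
  unfold sm
  apply Nat.pos_of_ne_zero
  exact prod_ne_zero_iff.2 fun l hl => pow_ne_zero _ (by
    have : l.Prime := (mem_filter.1 hl).2
    exact this.ne_zero)

theorem chg (k a0 b0 : ℕ) (a b : Fin k → ℕ) (hk : 1 ≤ k) (ha0 : 1 ≤ a0) (ha : ∀ j, 1 ≤ a j)
    (h0 : ∀ j, a0 * b j ≠ a j * b0) (hij : ∀ i j, i ≠ j → a i * b j ≠ a j * b i)
    (ε : ℝ) (hε : 0 < ε) : ∃ A X0 : ℕ, 1 ≤ A ∧ ∀ X : ℕ, X0 ≤ X → ∀ y : ℕ, y ^ A ≤ X →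
    ∀ Φ : (Fin k → ℕ) → ℂ, (∀ d, ‖Φ d‖ ≤ 1) →
      ‖∑ n ∈ Ioc 0 X, ((-1 : ℂ) ^ (ArithmeticFunction.cardFactors (a0 * n + b0))) *
        Φ (fun j => sm 0 y (a j * n + b j))‖ ≤ ε * X := by
  classical
  have hc : ∀ j, ∃ c : ℕ, 1 ≤ c ∧ a j * c = a0 * ∏ i, a i := by
    intro j
    refine ⟨a0 * ∏ i ∈ univ.erase j, a i, ?_, ?_⟩
    · exact Nat.mul_pos ha0 (prod_pos fun i _ => ha i)
    · rw [← mul_prod_erase univ a (mem_univ j)]
      ring
  choose c hc1 hc2 using hc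
  obtain ⟨c0, hc0⟩ : ∃ c0 : ℕ, c0 = ∏ i, a i := ⟨_, rfl⟩
  have hc01 : 1 ≤ c0 := by rw [hc0]; exact Nat.succ_le_of_lt (prod_pos fun i _ => ha i)
  rw [← hc0] at hc2
  obtain ⟨P, hP⟩ : ∃ P : ℕ, P = a0 * c0 := ⟨_, rfl⟩
  rw [← hP] at hc2
  have hP1 : 1 ≤ P := by rw [hP]; exact Nat.mul_pos ha0 hc01
  obtain ⟨A, hA, H⟩ := coreA ST_all k P (b0 * c0) (fun j => b j * c j) hk hP1 (by
    intro i j he
    have he1 : b i * c i = b j * c j := he
    by_contra hne
    apply hij i j hne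
    have h1 : a i * b j * P = a j * b i * P := by
      calc a i * b j * P = a i * (b j * c j) * a j := by rw [← hc2 j]; ring
        _ = a i * (b i * c i) * a j := by rw [he1]
        _ = a j * b i * P := by rw [← hc2 i]; ring
    exact Nat.eq_of_mul_eq_mul_right hP1 h1) (by
    intro j he
    have he1 : b j * c j = b0 * c0 := he
    apply h0 j
    have h1 : a0 * b j * P = a j * b0 * P := by
      calc a0 * b j * P = a0 * (b j * c j) * a j := by rw [← hc2 j]; ring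
        _ = a0 * (b0 * c0) * a j := by rw [he1]
        _ = a j * b0 * P := by rw [hP]; ring
    exact Nat.eq_of_mul_eq_mul_right hP1 h1) ε hε
  obtain ⟨X0, hX0⟩ := H _ Pool.Agent.W15.TL.kf_lam
    (fun q r hq => (Pool.Agent.W597.TL.means q r hq).1)
  refine ⟨A, X0, hA, ?_⟩
  intro X hX y hy Φ hΦ
  have h1 := hX0 X hX y hy (fun s => Φ (fun j => s j / sm 0 y (c j))) (fun d => hΦ _)
  have h2 : ∑ n ∈ Ioc 0 X, ((-1 : ℂ) ^ (ArithmeticFunction.cardFactors (P * n + b0 * c0))) *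
        Φ (fun j => sm 0 y (P * n + b j * c j) / sm 0 y (c j)) =
      ((-1 : ℂ) ^ (ArithmeticFunction.cardFactors c0)) *
        ∑ n ∈ Ioc 0 X, ((-1 : ℂ) ^ (ArithmeticFunction.cardFactors (a0 * n + b0))) *
          Φ (fun j => sm 0 y (a j * n + b j)) := by
    rw [mul_sum]
    apply sum_congr rfl
    intro n hn
    rw [mem_Ioc] at hn
    have e1 : P * n + b0 * c0 = c0 * (a0 * n + b0) := by rw [hP]; ring
    have hne0 : a0 * n + b0 ≠ 0 := by
      have := Nat.mul_pos ha0 hn.1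
      omega
    rw [e1, ArithmeticFunction.cardFactors_mul (by omega) hne0, pow_add, mul_assoc]
    congr 3
    funext j
    have e2 : P * n + b j * c j = c j * (a j * n + b j) := by rw [← hc2 j]; ring
    have hnej : a j * n + b j ≠ 0 := by
      have := Nat.mul_pos (ha j) hn.1
      omega
    rw [e2, sm_mul (by have := hc1 j; omega) hnej, Nat.mul_div_cancel_left _ (sm_pos 0 y (c j))]
  rw [h2, norm_mul] at h1
  have h3 : ‖((-1 : ℂ) ^ (ArithmeticFunction.cardFactors c0))‖ = 1 := by simp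
  rw [h3, one_mul] at h1
  exact h1

end Pool.Agent.W208.TL
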