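import Pool.Agent.W15.TL.CH

/-! Variant of the main lemma of `Pool.Agent.W15.TL.CH` with forms `a n + h` -/

set_option autoImplicit false

namespace Pool.Agent.W208.TL

open Finset Filter
open Pool.Agent.W15.TL (sm_sm cav_le gcd_lf_mod)

theorem coreA (hST : ST) (k a h0 : ℕ) (h : Fin k → ℕ) (hk : 1 ≤ k) (ha : 1 ≤ a)
    (hinj : Function.Injective h) (hne : ∀ j, h j ≠ h0) (ε : ℝ) (hε : 0 < ε) : ∃ A : ℕ, 1 ≤ A ∧ ∀ f : ℕ → ℂ, KF f →
    (∀ q r : ℕ, 1 ≤ q → Tendsto (fun X : ℕ =>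
      (∑ n ∈ (Ioc 0 X).filter (fun n => n ≡ r [MOD q]), f n) / (X : ℂ)) atTop (nhds 0)) →
    ∃ X0 : ℕ, ∀ X : ℕ, X0 ≤ X → ∀ y : ℕ, y ^ A ≤ X →
    ∀ Φ : (Fin k → ℕ) → ℂ, (∀ d, ‖Φ d‖ ≤ 1) →
      ‖∑ n ∈ Ioc 0 X, f (a * n + h0) * Φ (fun j => sm 0 y (a * n + h j))‖ ≤ ε * X := by
  classical
  have haR : (0 : ℝ) < a := by exact_mod_cast ha
  obtain ⟨Q, w, K1, K, y0, haQ, hQ, hK1, hK, H⟩ := hST k (fun j => (h j : ℤ) - h0) hk
    (fun i j hij => hinj (by simpa using hij)) (fun j => by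
      have := hne j; omega) a ha (ε / (3 * a)) (by positivity)
  refine ⟨K, hK, fun f hf hmean => ?_⟩
  -- residue classes
  have hres : ∀ r : ℕ, ∃ X1 : ℕ, ∀ X : ℕ, X1 ≤ X →
      ‖∑ n ∈ (Ioc 0 X).filter (fun n => n ≡ r [MOD Q]), f n‖ ≤ ε / (3 * a * Q) * X := by
    intro r
    have hQ' : (0 : ℝ) < Q := by exact_mod_cast hQ
    have := (Metric.tendsto_atTop.1 (hmean Q r hQ)) (ε / (3 * a * Q)) (by positivity)
    obtain ⟨N, hN⟩ := this
    refine ⟨max N 1, fun X hX => ?_⟩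
    have h1 := hN X (le_trans (le_max_left _ _) hX)
    have hX1 : 1 ≤ X := le_trans (le_max_right _ _) hX
    have hX' : (0 : ℝ) < X := by exact_mod_cast hX1
    rw [dist_zero_right, norm_div, Complex.norm_natCast, div_lt_iff₀ hX'] at h1
    exact h1.le
  choose X1 hX1 using hres
  refine ⟨max (max 1 (y0 ^ K)) (max (⌈(6 * h0 : ℝ) / ε⌉₊) ((Finset.range Q).sup X1)), ?_⟩
  intro X₀ hX₀ y hy₀ Φ hΦ
  obtain ⟨X, hXdef⟩ : ∃ X : ℕ, X = a * X₀ := ⟨_, rfl⟩
  have hXX : X₀ ≤ X := by rw [hXdef]; exact Nat.le_mul_of_pos_left _ ha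
  have hX := hX₀.trans hXX
  have hy := hy₀.trans hXX
  have hXa : 1 ≤ X := le_trans (le_trans (le_max_left _ _) (le_max_left _ _)) hX
  have hXb : y0 ^ K ≤ X := le_trans (le_trans (le_max_right _ _) (le_max_left _ _)) hX
  have hXc : ⌈(6 * h0 : ℝ) / ε⌉₊ ≤ X := le_trans (le_trans (le_max_left _ _) (le_max_right _ _)) hX
  have hXd : (Finset.range Q).sup X1 ≤ X :=
    le_trans (le_trans (le_max_right _ _) (le_max_right _ _)) hX
  have hX0 : (0 : ℝ) < X := by exact_mod_cast hXa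
  -- the level
  obtain ⟨Y, hyY, hy0Y, hYX⟩ : ∃ Y : ℕ, y ≤ Y ∧ y0 ≤ Y ∧ Y ^ K ≤ X := by
    rcases le_total y y0 with hc | hc
    · exact ⟨y0, hc, le_rfl, hXb⟩
    · exact ⟨y, le_rfl, hc, hy⟩
  obtain ⟨-, -, H3⟩ := H Y X hy0Y hYX
  set Φ' : (Fin k → ℕ) → ℂ := fun s => Φ (fun j => sm 0 y (s j)) with hΦ'
  have hΦ'1 : ∀ d, ‖Φ' d‖ ≤ 1 := fun d => hΦ _
  set ρ : ℕ → ℂ := fun n => if n % a = h0 % a then 1 else 0 with hρ
  have hρ1 : ∀ n, ‖ρ n‖ ≤ 1 := by
    intro n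
    simp only [hρ]
    split_ifs <;> simp
  have H4 := H3 Φ' hΦ'1 f hf ρ hρ1 (fun n => by simp only [hρ, Nat.add_mod_right])
  set G : ℕ → ℂ := fun n => ρ n * Φ' (fun j => sm 0 Y (lf 1 ((h j : ℤ) - h0) n)) with hG
  set g : ℕ → ℂ := fun n => ρ n * cav w Y (Y ^ K1) Φ'
    (fun j => Nat.gcd (lf 1 ((h j : ℤ) - h0) n) Q) with hg
  have H5 : ‖∑ n ∈ Ioc 0 X, f n * (G n - g n)‖ ≤ ε / (3 * a) * X := by
    simpa [hG, hg, mul_sub] using H4
  -- shift
  have hshift : ∑ n ∈ Ioc 0 X₀, f (a * n + h0) * Φ (fun j => sm 0 y (a * n + h j))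
      = ∑ n ∈ Ioc h0 (X + h0), f n * G n := by
    have hmap : (Ioc h0 (X + h0)).filter (fun m => m % a = h0 % a) =
        (Ioc 0 X₀).image (fun n => a * n + h0) := by
      ext m
      simp only [mem_Ioc, mem_image, mem_filter]
      constructor
      · rintro ⟨⟨h1, h2⟩, h3⟩
        have h4 : a ∣ m - h0 := (Nat.modEq_iff_dvd' h1.le).1 h3.symm
        obtain ⟨c, hc⟩ := h4
        refine ⟨c, ⟨?_, ?_⟩, by omega⟩
        · rcases Nat.eq_zero_or_pos c with h5 | h5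
          · subst h5; omega
          · exact h5
        · have h6 : a * c ≤ a * X₀ := by rw [← hXdef, ← hc]; omega
          exact Nat.le_of_mul_le_mul_left h6 ha
      · rintro ⟨c, ⟨h1, h2⟩, rfl⟩
        have h5 : a * c ≤ a * X₀ := Nat.mul_le_mul_left a h2
        have h6 : 0 < a * c := Nat.mul_pos ha h1
        rw [← hXdef] at h5
        refine ⟨⟨by omega, by omega⟩, ?_⟩
        rw [Nat.mul_add_mod]
    have hz : ∑ n ∈ Ioc h0 (X + h0), f n * G n =
        ∑ n ∈ (Ioc h0 (X + h0)).filter (fun m => m % a = h0 % a), f n * G n := by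
      rw [Finset.sum_filter]
      refine Finset.sum_congr rfl fun n _ => ?_
      split_ifs with hc
      · rfl
      · simp only [hG, hρ, if_neg hc, zero_mul, mul_zero]
    rw [hz, hmap, Finset.sum_image (by
      intro u _ v _ huv
      have h7 : a * u = a * v := by simpa using huv
      exact Nat.eq_of_mul_eq_mul_left ha h7)]
    refine Finset.sum_congr rfl fun n _ => ?_
    congr 1
    have h8 : (a * n + h0) % a = h0 % a := by rw [Nat.mul_add_mod]
    simp only [hG, hρ, hΦ', if_pos h8, one_mul]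
    congr 1
    funext j
    rw [sm_sm hyY]
    congr 1
    unfold lf
    have : ((1 : ℕ) : ℤ) * ((a * n + h0 : ℕ) : ℤ) + ((h j : ℤ) - h0) = ((a * n + h j : ℕ) : ℤ) := by
      push_cast; ring
    rw [this, Int.natAbs_natCast]
  have hG1 : ∀ n, ‖G n‖ ≤ 1 := fun n => by
    simp only [hG]
    rw [norm_mul]
    exact mul_le_one₀ (hρ1 n) (norm_nonneg _) (hΦ'1 _)
  have hg1 : ∀ n, ‖g n‖ ≤ 1 := fun n => by
    simp only [hg]
    rw [norm_mul]
    exact mul_le_one₀ (hρ1 n) (norm_nonneg _) (cav_le _ _ _ _ hΦ'1 _)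
  have hfG : ∀ n, ‖f n * G n‖ ≤ 1 := fun n => by
    rw [norm_mul]
    exact mul_le_one₀ (hf.1 n) (norm_nonneg _) (hG1 n)
  -- boundary terms
  have hbd : ‖∑ n ∈ Ioc h0 (X + h0), f n * G n - ∑ n ∈ Ioc 0 X, f n * G n‖ ≤ 2 * h0 := by
    have e1 : ∑ n ∈ Ioc 0 (X + h0), f n * G n
        = ∑ n ∈ Ioc 0 h0, f n * G n + ∑ n ∈ Ioc h0 (X + h0), f n * G n := by
      rw [← Finset.sum_union]
      · congr 1
        ext m; simp only [mem_union, mem_Ioc]; omega
      · rw [Finset.disjoint_left]; intro m; simp only [mem_Ioc]; omega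
    have e2 : ∑ n ∈ Ioc 0 (X + h0), f n * G n
        = ∑ n ∈ Ioc 0 X, f n * G n + ∑ n ∈ Ioc X (X + h0), f n * G n := by
      rw [← Finset.sum_union]
      · congr 1
        ext m; simp only [mem_union, mem_Ioc]; omega
      · rw [Finset.disjoint_left]; intro m; simp only [mem_Ioc]; omega
    have e3 : ∑ n ∈ Ioc h0 (X + h0), f n * G n - ∑ n ∈ Ioc 0 X, f n * G n
        = ∑ n ∈ Ioc X (X + h0), f n * G n - ∑ n ∈ Ioc 0 h0, f n * G n := by
      have := e1.symm.trans e2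
      linear_combination this
    rw [e3]
    refine (norm_sub_le _ _).trans ?_
    have n1 : ‖∑ n ∈ Ioc X (X + h0), f n * G n‖ ≤ h0 := by
      refine (norm_sum_le _ _).trans ?_
      refine (Finset.sum_le_sum fun n _ => hfG n).trans ?_
      simp
    have n2 : ‖∑ n ∈ Ioc 0 h0, f n * G n‖ ≤ h0 := by
      refine (norm_sum_le _ _).trans ?_
      refine (Finset.sum_le_sum fun n _ => hfG n).trans ?_
      simp
    linarith
  have hXc₀ : ⌈(6 * h0 : ℝ) / ε⌉₊ ≤ X₀ :=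
    le_trans (le_trans (le_max_left _ _) (le_max_right _ _)) hX₀
  have hbd2 : (2 * h0 : ℝ) ≤ ε / 3 * X₀ := by
    have h1 : (6 * h0 : ℝ) / ε ≤ X₀ := (Nat.le_ceil _).trans (by exact_mod_cast hXc₀)
    rw [div_le_iff₀ hε] at h1
    linarith
  -- the main term
  have hgmod : ∀ n, g n = g (n % Q) := by
    intro n
    simp only [hg, hρ]
    have e0 : n % Q % a = n % a := Nat.mod_mod_of_dvd n haQ
    rw [e0]
    congr 2
    funext j
    exact gcd_lf_mod _ Q n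
  have hmain : ‖∑ n ∈ Ioc 0 X, f n * g n‖ ≤ ε / (3 * a) * X := by
    have hfib : ∑ n ∈ Ioc 0 X, f n * g n
        = ∑ r ∈ Finset.range Q, ∑ n ∈ (Ioc 0 X).filter (fun n => n % Q = r), f n * g n := by
      rw [Finset.sum_fiberwise_of_maps_to]
      intro n _
      exact Finset.mem_range.2 (Nat.mod_lt _ hQ)
    rw [hfib]
    refine (norm_sum_le _ _).trans ?_
    have hterm : ∀ r ∈ Finset.range Q,
        ‖∑ n ∈ (Ioc 0 X).filter (fun n => n % Q = r), f n * g n‖ ≤ ε / (3 * a * Q) * X := by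
      intro r hr
      have hrQ : r < Q := Finset.mem_range.1 hr
      have e1 : (Ioc 0 X).filter (fun n => n % Q = r)
          = (Ioc 0 X).filter (fun n => n ≡ r [MOD Q]) := by
        refine Finset.filter_congr fun n _ => ?_
        rw [Nat.ModEq, Nat.mod_eq_of_lt hrQ]
      have e2 : ∑ n ∈ (Ioc 0 X).filter (fun n => n % Q = r), f n * g n
          = (∑ n ∈ (Ioc 0 X).filter (fun n => n ≡ r [MOD Q]), f n) * g r := by
        rw [← e1, Finset.sum_mul]
        refine Finset.sum_congr rfl fun n hn => ?_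
        rw [hgmod n, (Finset.mem_filter.1 hn).2]
      rw [e2, norm_mul]
      have h2 := hX1 r X ((Finset.le_sup hr).trans hXd)
      calc _ ≤ (ε / (3 * a * Q) * X) * 1 :=
            mul_le_mul h2 (hg1 r) (norm_nonneg _) ((norm_nonneg _).trans h2)
        _ = _ := mul_one _
    refine (Finset.sum_le_sum hterm).trans ?_
    rw [Finset.sum_const, Finset.card_range, nsmul_eq_mul]
    have hQ' : (Q : ℝ) ≠ 0 := by positivity
    apply le_of_eq
    field_simp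
  rw [hshift]
  have hsplit : ∑ n ∈ Ioc h0 (X + h0), f n * G n
      = (∑ n ∈ Ioc h0 (X + h0), f n * G n - ∑ n ∈ Ioc 0 X, f n * G n)
        + ∑ n ∈ Ioc 0 X, f n * (G n - g n) + ∑ n ∈ Ioc 0 X, f n * g n := by
    have : ∑ n ∈ Ioc 0 X, f n * (G n - g n)
        = ∑ n ∈ Ioc 0 X, f n * G n - ∑ n ∈ Ioc 0 X, f n * g n := by
      rw [← Finset.sum_sub_distrib]
      exact Finset.sum_congr rfl fun n _ => by ring
    rw [this]; ring
  rw [hsplit]
  have hfin : ε / (3 * a) * (X : ℝ) = ε / 3 * X₀ := by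
    rw [hXdef]
    push_cast
    field_simp
  calc _ ≤ 2 * h0 + ε / (3 * a) * X + ε / (3 * a) * X :=
        (norm_add₃_le).trans (add_le_add (add_le_add hbd H5) hmain)
    _ ≤ ε * X₀ := by rw [hfin]; linarith

end Pool.Agent.W208.TL
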