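import Pool.Agent.W15.TL.CH

/-! Uniform variant of the main lemma of `Pool.Agent.W15.TL.CH` -/

set_option autoImplicit false

namespace Pool.Agent.W208.TL

open Finset Filter
open Pool.Agent.W15.TL (sm_sm cav_le gcd_lf_mod)

theorem coreU (hST : ST) (k h0 : ℕ) (h : Fin k → ℕ) (hk : 1 ≤ k) (hinj : Function.Injective h)
    (hne : ∀ j, h j ≠ h0) (ε : ℝ) (hε : 0 < ε) : ∃ A X0 : ℕ, 1 ≤ A ∧ ∀ X : ℕ, X0 ≤ X →
    ∀ f : ℕ → ℂ, KF f → (∀ q r : ℕ, 1 ≤ q → q ≤ A →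
      ‖∑ n ∈ (Ioc 0 X).filter (fun n => n ≡ r [MOD q]), f n‖ ≤ X / A) →
    ∀ y : ℕ, y ^ A ≤ X → ∀ Φ : (Fin k → ℕ) → ℂ, (∀ d, ‖Φ d‖ ≤ 1) →
      ‖∑ n ∈ Ioc 0 X, f (n + h0) * Φ (fun j => sm 0 y (n + h j))‖ ≤ ε * X := by
  classical
  obtain ⟨Q, w, K1, K, y0, -, hQ, hK1, hK, H⟩ := hST k (fun j => (h j : ℤ) - h0) hk
    (fun i j hij => hinj (by simpa using hij)) (fun j => by
      have := hne j; omega) 1 le_rfl (ε / 3) (by positivity)
  have hQ' : (0 : ℝ) < Q := by exact_mod_cast hQ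
  obtain ⟨A, hAK, hAQ, hAε⟩ : ∃ A : ℕ, K ≤ A ∧ Q ≤ A ∧ 3 * (Q : ℝ) / ε ≤ A :=
    ⟨max K (max Q ⌈3 * (Q : ℝ) / ε⌉₊), le_max_left _ _, (le_max_left _ _).trans (le_max_right _ _),
      (Nat.le_ceil _).trans (by exact_mod_cast (le_max_right _ _).trans (le_max_right _ _))⟩
  have hA0 : (0 : ℝ) < A := by exact_mod_cast (by omega : 0 < A)
  refine ⟨A, max (max 1 (y0 ^ K)) (⌈(6 * h0 : ℝ) / ε⌉₊), by omega, ?_⟩
  intro X hX f hf hmean y hyA Φ hΦ
  have hy : y ^ K ≤ X := by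
    rcases Nat.eq_zero_or_pos y with h1 | h1
    · subst h1
      rw [zero_pow (by omega)]
      exact Nat.zero_le _
    · exact (Nat.pow_le_pow_right h1 hAK).trans hyA
  have hXa : 1 ≤ X := le_trans (le_trans (le_max_left _ _) (le_max_left _ _)) hX
  have hXb : y0 ^ K ≤ X := le_trans (le_trans (le_max_right _ _) (le_max_left _ _)) hX
  have hXc : ⌈(6 * h0 : ℝ) / ε⌉₊ ≤ X := le_trans (le_max_right _ _) hX
  have hX0 : (0 : ℝ) < X := by exact_mod_cast hXa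
  -- the level
  obtain ⟨Y, hyY, hy0Y, hYX⟩ : ∃ Y : ℕ, y ≤ Y ∧ y0 ≤ Y ∧ Y ^ K ≤ X := by
    rcases le_total y y0 with hc | hc
    · exact ⟨y0, hc, le_rfl, hXb⟩
    · exact ⟨y, le_rfl, hc, hy⟩
  obtain ⟨-, -, H3⟩ := H Y X hy0Y hYX
  set Φ' : (Fin k → ℕ) → ℂ := fun s => Φ (fun j => sm 0 y (s j)) with hΦ'
  have hΦ'1 : ∀ d, ‖Φ' d‖ ≤ 1 := fun d => hΦ _
  have H4 := H3 Φ' hΦ'1 f hf (fun _ => 1) (fun _ => by simp) (fun _ => rfl)
  set G : ℕ → ℂ := fun n => Φ' (fun j => sm 0 Y (lf 1 ((h j : ℤ) - h0) n)) with hG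
  set g : ℕ → ℂ := fun n => cav w Y (Y ^ K1) Φ' (fun j => Nat.gcd (lf 1 ((h j : ℤ) - h0) n) Q)
    with hg
  have H5 : ‖∑ n ∈ Ioc 0 X, f n * (G n - g n)‖ ≤ ε / 3 * X := by
    simpa [hG, hg] using H4
  -- shift
  have hshift : ∑ n ∈ Ioc 0 X, f (n + h0) * Φ (fun j => sm 0 y (n + h j))
      = ∑ n ∈ Ioc h0 (X + h0), f n * G n := by
    have hmap : Ioc h0 (X + h0) = (Ioc 0 X).image (fun n => n + h0) := by
      ext m
      simp only [mem_Ioc, mem_image]
      constructor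
      · rintro ⟨h1, h2⟩
        exact ⟨m - h0, ⟨by omega, by omega⟩, by omega⟩
      · rintro ⟨a, ⟨h1, h2⟩, rfl⟩
        omega
    rw [hmap, Finset.sum_image (by intro a _ b _ hab; simpa using hab)]
    refine Finset.sum_congr rfl fun n _ => ?_
    congr 1
    simp only [hG, hΦ']
    congr 1
    funext j
    rw [sm_sm hyY]
    congr 1
    unfold lf
    have : ((1 : ℕ) : ℤ) * ((n + h0 : ℕ) : ℤ) + ((h j : ℤ) - h0) = ((n + h j : ℕ) : ℤ) := by
      push_cast; ring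
    rw [this, Int.natAbs_natCast]
  have hG1 : ∀ n, ‖G n‖ ≤ 1 := fun n => hΦ'1 _
  have hg1 : ∀ n, ‖g n‖ ≤ 1 := fun n => cav_le _ _ _ _ hΦ'1 _
  have hfG : ∀ n, ‖f n * G n‖ ≤ 1 := fun n => by
    rw [norm_mul]
    exact mul_le_one₀ (hf.1 n) (norm_nonneg _) (hG1 n)
  -- boundary terms
  have hbd : ‖∑ n ∈ Ioc h0 (X + h0), f n * G n - ∑ n ∈ Ioc 0 X, f n * G n‖ ≤ 2 * h0 := by
    have e1 : ∑ n ∈ Ioc 0 (X + h0), f n * G n
        = ∑ n ∈ Ioc 0 h0, f n * G n + ∑ n ∈ Ioc h0 (X + h0), f n * G n := by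
      rw [← Finset.sum_union]
      · congr 1
        ext m; simp only [mem_union, mem_Ioc]; omega
      · rw [Finset.disjoint_left]; intro m; simp only [mem_Ioc]; omega
    have e2 : ∑ n ∈ Ioc 0 (X + h0), f n * G n
        = ∑ n ∈ Ioc 0 X, f n * G n + ∑ n ∈ Ioc X (X + h0), f n * G n := by
      rw [← Finset.sum_union]
      · congr 1
        ext m; simp only [mem_union, mem_Ioc]; omega
      · rw [Finset.disjoint_left]; intro m; simp only [mem_Ioc]; omega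
    have e3 : ∑ n ∈ Ioc h0 (X + h0), f n * G n - ∑ n ∈ Ioc 0 X, f n * G n
        = ∑ n ∈ Ioc X (X + h0), f n * G n - ∑ n ∈ Ioc 0 h0, f n * G n := by
      have := e1.symm.trans e2
      linear_combination this
    rw [e3]
    refine (norm_sub_le _ _).trans ?_
    have n1 : ‖∑ n ∈ Ioc X (X + h0), f n * G n‖ ≤ h0 := by
      refine (norm_sum_le _ _).trans ?_
      refine (Finset.sum_le_sum fun n _ => hfG n).trans ?_
      simp
    have n2 : ‖∑ n ∈ Ioc 0 h0, f n * G n‖ ≤ h0 := by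
      refine (norm_sum_le _ _).trans ?_
      refine (Finset.sum_le_sum fun n _ => hfG n).trans ?_
      simp
    linarith
  have hbd2 : (2 * h0 : ℝ) ≤ ε / 3 * X := by
    have h1 : (6 * h0 : ℝ) / ε ≤ X := (Nat.le_ceil _).trans (by exact_mod_cast hXc)
    rw [div_le_iff₀ hε] at h1
    linarith
  -- the main term
  have hgmod : ∀ n, g n = g (n % Q) := by
    intro n
    simp only [hg]
    congr 1
    funext j
    exact gcd_lf_mod _ Q n
  have hmain : ‖∑ n ∈ Ioc 0 X, f n * g n‖ ≤ ε / 3 * X := by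
    have hfib : ∑ n ∈ Ioc 0 X, f n * g n
        = ∑ r ∈ Finset.range Q, ∑ n ∈ (Ioc 0 X).filter (fun n => n % Q = r), f n * g n := by
      rw [Finset.sum_fiberwise_of_maps_to]
      intro n _
      exact Finset.mem_range.2 (Nat.mod_lt _ hQ)
    rw [hfib]
    refine (norm_sum_le _ _).trans ?_
    have hterm : ∀ r ∈ Finset.range Q,
        ‖∑ n ∈ (Ioc 0 X).filter (fun n => n % Q = r), f n * g n‖ ≤ ε / (3 * Q) * X := by
      intro r hr
      have hrQ : r < Q := Finset.mem_range.1 hr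
      have e1 : (Ioc 0 X).filter (fun n => n % Q = r)
          = (Ioc 0 X).filter (fun n => n ≡ r [MOD Q]) := by
        refine Finset.filter_congr fun n _ => ?_
        rw [Nat.ModEq, Nat.mod_eq_of_lt hrQ]
      have e2 : ∑ n ∈ (Ioc 0 X).filter (fun n => n % Q = r), f n * g n
          = (∑ n ∈ (Ioc 0 X).filter (fun n => n ≡ r [MOD Q]), f n) * g r := by
        rw [← e1, Finset.sum_mul]
        refine Finset.sum_congr rfl fun n hn => ?_
        rw [hgmod n, (Finset.mem_filter.1 hn).2]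
      rw [e2, norm_mul]
      have h2 : ‖∑ n ∈ (Ioc 0 X).filter (fun n => n ≡ r [MOD Q]), f n‖ ≤ ε / (3 * Q) * X := by
        refine (hmean Q r hQ hAQ).trans ?_
        rw [div_le_iff₀ hA0]
        rw [div_le_iff₀ hε] at hAε
        have h3 : ε / (3 * Q) * X * A = (A * ε) / (3 * Q) * X := by ring
        rw [h3]
        have h4 : 1 ≤ (A * ε) / (3 * Q) := by
          rw [le_div_iff₀ (by positivity)]
          linarith
        nlinarith
      calc _ ≤ (ε / (3 * Q) * X) * 1 :=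
            mul_le_mul h2 (hg1 r) (norm_nonneg _) ((norm_nonneg _).trans h2)
        _ = _ := mul_one _
    refine (Finset.sum_le_sum hterm).trans ?_
    rw [Finset.sum_const, Finset.card_range, nsmul_eq_mul]
    have hQ' : (Q : ℝ) ≠ 0 := by positivity
    apply le_of_eq
    field_simp
  rw [hshift]
  have hsplit : ∑ n ∈ Ioc h0 (X + h0), f n * G n
      = (∑ n ∈ Ioc h0 (X + h0), f n * G n - ∑ n ∈ Ioc 0 X, f n * G n)
        + ∑ n ∈ Ioc 0 X, f n * (G n - g n) + ∑ n ∈ Ioc 0 X, f n * g n := by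
    have : ∑ n ∈ Ioc 0 X, f n * (G n - g n)
        = ∑ n ∈ Ioc 0 X, f n * G n - ∑ n ∈ Ioc 0 X, f n * g n := by
      rw [← Finset.sum_sub_distrib]
      exact Finset.sum_congr rfl fun n _ => by ring
    rw [this]; ring
  rw [hsplit]
  calc _ ≤ 2 * h0 + ε / 3 * X + ε / 3 * X :=
        (norm_add₃_le).trans (add_le_add (add_le_add hbd H5) hmain)
    _ ≤ ε * X := by linarith

end Pool.Agent.W208.TL
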