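import Pool.Agent.W208.TL.Pair

/-! The pair estimate for the structure theorem, second part -/

set_option autoImplicit false

namespace Pool.Agent.W208.TL

open Finset

theorem pair {k : ℕ} {a : Fin k → ℤ} {w V Q0 p q Z M y : ℕ} {ε1 : ℝ} (hε1 : 0 ≤ ε1)
    (hQ0 : Q0 ∣ QQ w V) (hV : 1 ≤ V) (hp : p.Prime) (hq : q.Prime)
    (hpa : ∀ j, ¬ (p : ℤ) ∣ a j) (hqa : ∀ j, ¬ (q : ℤ) ∣ a j)
    (hVw : 2 * (k : ℝ) * w ≤ ε1 * 2 ^ V)
    (hcl : ∀ b : ℕ, ∀ Ψ : (Fin (k + k) → ℕ) → ℂ, (∀ d, ‖Ψ d‖ ≤ 1) →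
      ‖((QQ w V : ℂ) / (M : ℂ)) * ∑ m ∈ (Ioc 0 M).filter (fun m => m ≡ b [MOD QQ w V]),
          Ψ (fun i => sm w y (lf (Fin.append (fun _ => p) (fun _ => q) i) (Fin.append a a i) m)) -
        ∑ d ∈ box (k + k) Z, Ψ d * ∏ i, (mu w y (d i) : ℂ)‖ ≤ ε1)
    (hs : ∑ d ∈ Icc 1 Z, (mu w y d : ℂ) ≠ 0) (hwy : w ≤ y) (hM : QQ w V ≤ M)
    {Φ : (Fin k → ℕ) → ℂ} (hΦ : ∀ d, ‖Φ d‖ ≤ 1) {ρ : ℕ → ℂ} (hρ : ∀ n, ‖ρ n‖ ≤ 1)
    (hper : ∀ n, ρ (n + Q0) = ρ n) :
    ‖∑ m ∈ Ioc 0 M, FF w y Z (QQ w V) a Φ ρ (p * m) * star (FF w y Z (QQ w V) a Φ ρ (q * m))‖ ≤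
      3 * ε1 * M := by
  classical
  have hQ1 : 1 ≤ QQ w V := QQ_pos w V
  have hM1 : 1 ≤ M := hQ1.trans hM
  have hQr : (0 : ℝ) < (QQ w V : ℝ) := by exact_mod_cast hQ1
  have hMr : (0 : ℝ) < (M : ℝ) := by exact_mod_cast hM1
  -- split into classes
  have hsplit : ∑ m ∈ Ioc 0 M, FF w y Z (QQ w V) a Φ ρ (p * m) *
        star (FF w y Z (QQ w V) a Φ ρ (q * m)) =
      ∑ b ∈ range (QQ w V), ∑ m ∈ (Ioc 0 M).filter (fun m => m ≡ b [MOD QQ w V]),
        FF w y Z (QQ w V) a Φ ρ (p * m) * star (FF w y Z (QQ w V) a Φ ρ (q * m)) := by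
    rw [← sum_fiberwise_of_maps_to (g := fun m => m % QQ w V) (t := range (QQ w V))
      (fun m _ => mem_range.2 (Nat.mod_lt _ hQ1))]
    apply sum_congr rfl
    intro b hb
    apply sum_congr _ fun _ _ => rfl
    apply filter_congr
    intro m _
    rw [mem_range] at hb
    show m % QQ w V = b ↔ m % QQ w V = b % QQ w V
    rw [Nat.mod_eq_of_lt hb]
  -- non-exceptional classes
  have hgood : ∀ b, ¬ Exc w V p q a b →
      ‖∑ m ∈ (Ioc 0 M).filter (fun m => m ≡ b [MOD QQ w V]),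
        FF w y Z (QQ w V) a Φ ρ (p * m) * star (FF w y Z (QQ w V) a Φ ρ (q * m))‖ ≤
        ε1 * M / (QQ w V : ℝ) := by
    intro b hb
    have hb1 : ∀ l ∈ PP 0 w, ∀ j, ¬ l ^ V ∣ lf p (a j) b :=
      fun l hl j hd => hb ⟨l, hl, j, Or.inl hd⟩
    have hb2 : ∀ l ∈ PP 0 w, ∀ j, ¬ l ^ V ∣ lf q (a j) b :=
      fun l hl j hd => hb ⟨l, hl, j, Or.inr hd⟩
    have hnorm : ∀ (A : Fin k → ℕ) (d : Fin k → ℕ),
        ‖Φ (fun j => A j * d j) - cav w y Z Φ A‖ ≤ 2 := by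
      intro A d
      have h1 := norm_sub_le (Φ (fun j => A j * d j)) (cav w y Z Φ A)
      have h2 := hΦ (fun j => A j * d j)
      have h3 := cav_norm (w := w) (y := y) (Z := Z) Φ hΦ A
      linarith
    let A1 : Fin k → ℕ := fun j => Nat.gcd (lf p (a j) b) (QQ w V)
    let A2 : Fin k → ℕ := fun j => Nat.gcd (lf q (a j) b) (QQ w V)
    let G1 : (Fin k → ℕ) → ℂ := fun d => Φ (fun j => A1 j * d j) - cav w y Z Φ A1
    let G2 : (Fin k → ℕ) → ℂ := fun d => star (Φ (fun j => A2 j * d j) - cav w y Z Φ A2)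
    let Ψ : (Fin (k + k) → ℕ) → ℂ := fun D =>
      (1 / 4 : ℂ) * (G1 (fun i => D (Fin.castAdd k i)) * G2 (fun i => D (Fin.natAdd k i)))
    have hΨ : ∀ d, ‖Ψ d‖ ≤ 1 := by
      intro d
      simp only [Ψ, G1, G2]
      rw [norm_mul, norm_mul, norm_star]
      have h1 := hnorm A1 (fun i => d (Fin.castAdd k i))
      have h2 := hnorm A2 (fun i => d (Fin.natAdd k i))
      have h3 := mul_le_mul h1 h2 (norm_nonneg _) (by norm_num : (0 : ℝ) ≤ 2)
      have h4 : ‖(1 / 4 : ℂ)‖ = 1 / 4 := by norm_num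
      rw [h4]
      linarith
    have h1 := hcl b Ψ hΨ
    have h2 : ∑ d ∈ box (k + k) Z, Ψ d * ∏ i, (mu w y (d i) : ℂ) = 0 := by
      have h3 := box_append (k := k) (w := w) (y := y) (Z := Z) G1 G2
      have h4 : ∑ d ∈ box k Z, G1 d * ∏ i, (mu w y (d i) : ℂ) = 0 := cav_zero Φ A1 hs
      rw [h4, zero_mul] at h3
      simp only [Ψ, mul_assoc (1 / 4 : ℂ)]
      rw [← mul_sum, h3, mul_zero]
    rw [h2, sub_zero] at h1
    have h5 : ∑ m ∈ (Ioc 0 M).filter (fun m => m ≡ b [MOD QQ w V]),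
        FF w y Z (QQ w V) a Φ ρ (p * m) * star (FF w y Z (QQ w V) a Φ ρ (q * m)) =
      (ρ (p * b) * star (ρ (q * b))) *
        ∑ m ∈ (Ioc 0 M).filter (fun m => m ≡ b [MOD QQ w V]),
          Ψ (fun i => sm w y (lf (Fin.append (fun _ => p) (fun _ => q) i)
            (Fin.append a a i) m)) := by
      rw [mul_sum]
      apply sum_congr rfl
      intro m hm
      rw [mem_filter] at hm
      rw [FF_val hwy hQ0 hper hb1 hm.2, FF_val hwy hQ0 hper hb2 hm.2]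
      simp only [Ψ, G1, G2, A1, A2, Fin.append_left, Fin.append_right]
      rw [star_mul', star_mul']
      have h6 : star (1 / 2 : ℂ) = 1 / 2 := by simp
      rw [h6]
      ring
    rw [h5, norm_mul, norm_mul, norm_star]
    set T := ∑ m ∈ (Ioc 0 M).filter (fun m => m ≡ b [MOD QQ w V]),
          Ψ (fun i => sm w y (lf (Fin.append (fun _ => p) (fun _ => q) i)
            (Fin.append a a i) m)) with hT
    have h7 : ‖ρ (p * b)‖ * ‖ρ (q * b)‖ ≤ 1 := by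
      have := mul_le_mul (hρ (p * b)) (hρ (q * b)) (norm_nonneg _) zero_le_one
      rwa [one_mul] at this
    have h8 := mul_le_mul_of_nonneg_right h7 (norm_nonneg T)
    rw [one_mul] at h8
    refine h8.trans ?_
    rw [norm_mul, norm_div, Complex.norm_natCast, Complex.norm_natCast] at h1
    rw [le_div_iff₀ hQr]
    have h9 : ‖T‖ * (QQ w V : ℝ) = ((QQ w V : ℝ) / M * ‖T‖) * M := by
      field_simp
    rw [h9]
    exact mul_le_mul_of_nonneg_right h1 hMr.le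
  -- all classes, trivial bound
  have htriv : ∀ b : ℕ, ‖∑ m ∈ (Ioc 0 M).filter (fun m => m ≡ b [MOD QQ w V]),
        FF w y Z (QQ w V) a Φ ρ (p * m) * star (FF w y Z (QQ w V) a Φ ρ (q * m))‖ ≤
        2 * M / (QQ w V : ℝ) := by
    intro b
    have h1 : ‖∑ m ∈ (Ioc 0 M).filter (fun m => m ≡ b [MOD QQ w V]),
        FF w y Z (QQ w V) a Φ ρ (p * m) * star (FF w y Z (QQ w V) a Φ ρ (q * m))‖ ≤
        ∑ m ∈ (Ioc 0 M).filter (fun m => m ≡ b [MOD QQ w V]), (1 : ℝ) := by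
      refine (norm_sum_le _ _).trans (sum_le_sum fun m _ => ?_)
      rw [norm_mul, norm_star]
      have h2 := mul_le_mul (FF_norm (w := w) (y := y) (Z := Z) (Q := QQ w V) (a := a) hΦ hρ
        (p * m)) (FF_norm (w := w) (y := y) (Z := Z) (Q := QQ w V) (a := a) hΦ hρ (q * m))
        (norm_nonneg _) zero_le_one
      rwa [one_mul] at h2
    rw [sum_const, nsmul_eq_mul, mul_one] at h1
    have h2 : ((((Ioc 0 M).filter (fun m => m ≡ b [MOD QQ w V])).card : ℕ) : ℝ) ≤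
        ((M / QQ w V + 1 : ℕ) : ℝ) := by exact_mod_cast card_res M (QQ w V) b
    have h3 : ((M / QQ w V : ℕ) : ℝ) ≤ (M : ℝ) / (QQ w V : ℝ) := Nat.cast_div_le
    have h4 : (1 : ℝ) ≤ (M : ℝ) / (QQ w V : ℝ) := by
      rw [le_div_iff₀ hQr, one_mul]
      exact_mod_cast hM
    push_cast at h2
    have h5 : 2 * (M : ℝ) / (QQ w V : ℝ) = (M : ℝ) / (QQ w V : ℝ) + (M : ℝ) / (QQ w V : ℝ) := by
      ring
    rw [h5]
    linarith
  rw [hsplit]
  refine (norm_sum_le _ _).trans ?_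
  rw [← sum_filter_add_sum_filter_not (range (QQ w V)) (Exc w V p q a)]
  have hE := card_exc (a := a) (w := w) (V := V) hp hq hpa hqa hV
  have h1 : ∑ b ∈ (range (QQ w V)).filter (Exc w V p q a),
      ‖∑ m ∈ (Ioc 0 M).filter (fun m => m ≡ b [MOD QQ w V]),
        FF w y Z (QQ w V) a Φ ρ (p * m) * star (FF w y Z (QQ w V) a Φ ρ (q * m))‖ ≤
      2 * ε1 * M := by
    refine (sum_le_sum fun b _ => htriv b).trans ?_
    rw [sum_const, nsmul_eq_mul]
    have h2 : 2 * (k : ℝ) * w * (QQ w V : ℝ) / 2 ^ V ≤ ε1 * (QQ w V : ℝ) := by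
      rw [div_le_iff₀ (by positivity)]
      have := mul_le_mul_of_nonneg_right hVw hQr.le
      linarith
    have h3 : (0 : ℝ) ≤ 2 * M / (QQ w V : ℝ) := by positivity
    refine (mul_le_mul_of_nonneg_right (hE.trans h2) h3).trans (le_of_eq ?_)
    field_simp
  have h2 : ∑ b ∈ (range (QQ w V)).filter (fun b => ¬ Exc w V p q a b),
      ‖∑ m ∈ (Ioc 0 M).filter (fun m => m ≡ b [MOD QQ w V]),
        FF w y Z (QQ w V) a Φ ρ (p * m) * star (FF w y Z (QQ w V) a Φ ρ (q * m))‖ ≤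
      ε1 * M := by
    refine (sum_le_sum fun b hb => hgood b (mem_filter.1 hb).2).trans ?_
    rw [sum_const, nsmul_eq_mul]
    have h3 : ((((range (QQ w V)).filter (fun b => ¬ Exc w V p q a b)).card : ℕ) : ℝ) ≤
        (QQ w V : ℝ) := by
      have := card_le_card (filter_subset (fun b => ¬ Exc w V p q a b) (range (QQ w V)))
      rw [card_range] at this
      exact_mod_cast this
    have h4 : (0 : ℝ) ≤ ε1 * M / (QQ w V : ℝ) := by positivity
    refine (mul_le_mul_of_nonneg_right h3 h4).trans (le_of_eq ?_)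
    field_simp
  linarith

end Pool.Agent.W208.TL
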