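import Pool.Agent.W208.TL.Stm2
import Pool.Agent.W883.TL.Om
import Pool.Agent.W208.TL.Pair2

/-! Independence of one exact `Ω` and of truncated `Ω` at the other shifts -/

set_option autoImplicit false

namespace Pool.Agent.W208.TL

open Finset Filter
open Pool.Agent.W883.TL (Om sum_box shift cav_norm Om_dvd)

/-- replacement of the uniform law by the sieve law, one coordinate after the other -/
theorem replG (X Z w y : ℕ) (hX : 0 < X) (η : ℝ) (hη : 0 ≤ η) (W : ℕ → ℕ)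
    (hs : ∑ d ∈ Icc 1 Z, mu w y d ≤ 2)
    (h1 : ∀ g : ℕ → ℂ, (∀ l, ‖g l‖ ≤ 1) →
      ‖(∑ m ∈ Ioc 0 X, g (W m)) / (X : ℂ) - ∑ d ∈ Icc 1 Z, g (Om d) * (mu w y d : ℂ)‖ ≤ η) :
    ∀ (k : ℕ) (G : (Fin k → ℕ) → ℂ), (∀ l, ‖G l‖ ≤ 1) →
      ‖(∑ m ∈ Fintype.piFinset (fun _ : Fin k => Ioc 0 X), G (fun j => W (m j))) / (X : ℂ) ^ k -
        ∑ d ∈ box k Z, G (fun j => Om (d j)) * ∏ j, (mu w y (d j) : ℂ)‖ ≤ 2 ^ k * η := by
  intro k
  have hXc : (X : ℂ) ≠ 0 := by exact_mod_cast hX.ne'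
  have hXr : (0 : ℝ) < X := by exact_mod_cast hX
  induction k with
  | zero =>
    intro G _
    have e : ∀ u : Fin 0 → ℕ, G u = G (fun j => j.elim0) := fun u => congrArg G (Subsingleton.elim _ _)
    simp only [e]
    simp [box]
    exact hη
  | succ k ih =>
    intro G hG
    have hc : ∀ (U : ℕ → ℕ) (a : ℕ) (m : Fin k → ℕ),
        (fun j : Fin (k + 1) => U ((Fin.cons a m : Fin (k + 1) → ℕ) j))
        = Fin.cons (U a) (fun j => U (m j)) := by
      intro U a m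
      ext j
      refine Fin.cases ?_ (fun i => ?_) j
      · simp
      · simp
    have e1 : ∑ m ∈ Fintype.piFinset (fun _ : Fin (k + 1) => Ioc 0 X), G (fun j => W (m j)) =
        ∑ a ∈ Ioc 0 X, ∑ m ∈ Fintype.piFinset (fun _ : Fin k => Ioc 0 X),
          G (Fin.cons (W a) (fun j => W (m j))) := by
      rw [Pool.Agent.W883.TL.sum_cons]
      refine Finset.sum_congr rfl fun a _ => Finset.sum_congr rfl fun m _ => ?_
      rw [hc]
    have e2 : ∑ d ∈ box (k + 1) Z, G (fun j => Om (d j)) * ∏ j, (mu w y (d j) : ℂ) =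
        ∑ d ∈ box k Z, (∏ j, (mu w y (d j) : ℂ)) * ∑ a ∈ Icc 1 Z,
          G (Fin.cons (Om a) (fun j => Om (d j))) * (mu w y a : ℂ) := by
      unfold box
      rw [Pool.Agent.W883.TL.sum_cons, Finset.sum_comm]
      refine Finset.sum_congr rfl fun d _ => ?_
      rw [Finset.mul_sum]
      refine Finset.sum_congr rfl fun a _ => ?_
      rw [hc, Fin.prod_univ_succ]
      simp only [Fin.cons_zero, Fin.cons_succ]
      ring
    set T : ℂ := (∑ a ∈ Ioc 0 X, ∑ d ∈ box k Z, G (Fin.cons (W a) (fun j => Om (d j))) *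
      ∏ j, (mu w y (d j) : ℂ)) / (X : ℂ) with hT
    have f1 : ‖(∑ m ∈ Fintype.piFinset (fun _ : Fin (k + 1) => Ioc 0 X), G (fun j => W (m j))) /
        (X : ℂ) ^ (k + 1) - T‖ ≤ 2 ^ k * η := by
      have g1 : (∑ m ∈ Fintype.piFinset (fun _ : Fin (k + 1) => Ioc 0 X), G (fun j => W (m j))) /
          (X : ℂ) ^ (k + 1) - T = (∑ a ∈ Ioc 0 X,
          ((∑ m ∈ Fintype.piFinset (fun _ : Fin k => Ioc 0 X),
            G (Fin.cons (W a) (fun j => W (m j)))) / (X : ℂ) ^ k -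
          ∑ d ∈ box k Z, G (Fin.cons (W a) (fun j => Om (d j))) *
            ∏ j, (mu w y (d j) : ℂ))) / (X : ℂ) := by
        rw [e1, hT, Finset.sum_sub_distrib, ← Finset.sum_div, sub_div, div_div, pow_succ]
      rw [g1, norm_div, Complex.norm_natCast, div_le_iff₀ hXr]
      refine (norm_sum_le _ _).trans ?_
      have g2 : ∀ a ∈ Ioc 0 X, ‖((∑ m ∈ Fintype.piFinset (fun _ : Fin k => Ioc 0 X),
            G (Fin.cons (W a) (fun j => W (m j)))) / (X : ℂ) ^ k -
          ∑ d ∈ box k Z, G (Fin.cons (W a) (fun j => Om (d j))) *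
            ∏ j, (mu w y (d j) : ℂ))‖ ≤ 2 ^ k * η := by
        intro a _
        exact ih (fun l => G (Fin.cons (W a) l)) (fun l => hG _)
      refine (Finset.sum_le_card_nsmul _ _ _ g2).trans (le_of_eq ?_)
      rw [nsmul_eq_mul, Nat.card_Ioc]
      simp
      ring
    have f2 : ‖T - ∑ d ∈ box (k + 1) Z, G (fun j => Om (d j)) * ∏ j, (mu w y (d j) : ℂ)‖ ≤
        2 ^ k * η := by
      have g1 : T - ∑ d ∈ box (k + 1) Z, G (fun j => Om (d j)) * ∏ j, (mu w y (d j) : ℂ) =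
          ∑ d ∈ box k Z, (∏ j, (mu w y (d j) : ℂ)) *
          ((∑ a ∈ Ioc 0 X, G (Fin.cons (W a) (fun j => Om (d j)))) / (X : ℂ) -
            ∑ a ∈ Icc 1 Z, G (Fin.cons (Om a) (fun j => Om (d j))) * (mu w y a : ℂ)) := by
        rw [e2, hT, Finset.sum_comm, Finset.sum_div, ← Finset.sum_sub_distrib]
        refine Finset.sum_congr rfl fun d _ => ?_
        rw [← Finset.sum_mul]
        ring
      rw [g1]
      refine (norm_sum_le _ _).trans ?_
      have g2 : ∀ d ∈ box k Z, ‖(∏ j, (mu w y (d j) : ℂ)) *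
          ((∑ a ∈ Ioc 0 X, G (Fin.cons (W a) (fun j => Om (d j)))) / (X : ℂ) -
            ∑ a ∈ Icc 1 Z, G (Fin.cons (Om a) (fun j => Om (d j))) * (mu w y a : ℂ))‖ ≤
          (∏ j, mu w y (d j)) * η := by
        intro d _
        rw [norm_mul, norm_prod]
        have g3 : ∏ j, ‖(mu w y (d j) : ℂ)‖ = ∏ j, mu w y (d j) := by
          refine Finset.prod_congr rfl fun j _ => ?_
          rw [Complex.norm_real, Real.norm_eq_abs, abs_of_nonneg (mu_nonneg w y _)]
        rw [g3]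
        apply mul_le_mul_of_nonneg_left _ (Finset.prod_nonneg fun j _ => mu_nonneg w y _)
        exact h1 (fun a => G (Fin.cons a (fun j => Om (d j)))) (fun l => hG _)
      refine (Finset.sum_le_sum g2).trans ?_
      rw [← Finset.sum_mul, sum_box]
      apply mul_le_mul_of_nonneg_right _ hη
      exact pow_le_pow_left₀ (Finset.sum_nonneg fun d _ => mu_nonneg w y d) hs k
    calc _ ≤ _ := norm_sub_le_norm_sub_add_norm_sub _ T _
      _ ≤ 2 ^ k * η + 2 ^ k * η := add_le_add f1 f2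
      _ = 2 ^ (k + 1) * η := by ring

/-- shift invariance for the product law -/
theorem shiftG (Z w y L : ℕ) (τ : ℝ) (hτ : 0 ≤ τ) (hs : ∑ d ∈ Icc 1 Z, mu w y d ≤ 2)
    (h1 : ∀ g : ℕ → ℂ, (∀ l, ‖g l‖ ≤ 1) → ∀ l : ℕ, l ≤ L →
      ‖∑ d ∈ Icc 1 Z, g (Om d + l) * (mu w y d : ℂ) - ∑ d ∈ Icc 1 Z, g (Om d) * (mu w y d : ℂ)‖
        ≤ τ) :
    ∀ (k : ℕ) (G : (Fin k → ℕ) → ℂ), (∀ l, ‖G l‖ ≤ 1) → ∀ l : Fin k → ℕ, (∀ j, l j ≤ L) →
      ‖∑ d ∈ box k Z, G (fun j => Om (d j) + l j) * ∏ j, (mu w y (d j) : ℂ) -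
        ∑ d ∈ box k Z, G (fun j => Om (d j)) * ∏ j, (mu w y (d j) : ℂ)‖ ≤ k * τ * 2 ^ k := by
  have hs0 : 0 ≤ ∑ d ∈ Icc 1 Z, mu w y d := Finset.sum_nonneg fun d _ => mu_nonneg w y d
  intro k
  induction k with
  | zero =>
    intro G _ l _
    have e : ∀ u : Fin 0 → ℕ, G u = G (fun j => j.elim0) := fun u => congrArg G (Subsingleton.elim _ _)
    simp only [e]
    simp [box]
  | succ k ih =>
    intro G hG l hl
    have e0 : ∀ (U : (Fin (k + 1) → ℕ) → ℂ),
        ∑ d ∈ box (k + 1) Z, U d * ∏ j, (mu w y (d j) : ℂ) =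
        ∑ a ∈ Icc 1 Z, (mu w y a : ℂ) * ∑ d ∈ box k Z, U (Fin.cons a d) * ∏ j, (mu w y (d j) : ℂ) := by
      intro U
      unfold box
      rw [Pool.Agent.W883.TL.sum_cons]
      refine Finset.sum_congr rfl fun a _ => ?_
      rw [Finset.mul_sum]
      refine Finset.sum_congr rfl fun d _ => ?_
      rw [Fin.prod_univ_succ]
      simp only [Fin.cons_zero, Fin.cons_succ]
      ring
    have hc : ∀ (a : ℕ) (d : Fin k → ℕ),
        (fun j : Fin (k + 1) => Om ((Fin.cons a d : Fin (k + 1) → ℕ) j) + l j)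
        = Fin.cons (Om a + l 0) (fun j => Om (d j) + l j.succ) := by
      intro a m
      ext j
      refine Fin.cases ?_ (fun i => ?_) j
      · simp
      · simp
    have hc' : ∀ (a : ℕ) (d : Fin k → ℕ),
        (fun j : Fin (k + 1) => Om ((Fin.cons a d : Fin (k + 1) → ℕ) j))
        = Fin.cons (Om a) (fun j => Om (d j)) := by
      intro a m
      ext j
      refine Fin.cases ?_ (fun i => ?_) j
      · simp
      · simp
    have hA : ∑ d ∈ box (k + 1) Z, G (fun j => Om (d j) + l j) * ∏ j, (mu w y (d j) : ℂ) =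
        ∑ a ∈ Icc 1 Z, (mu w y a : ℂ) * ∑ d ∈ box k Z,
          G (Fin.cons (Om a + l 0) (fun j => Om (d j) + l j.succ)) *
            ∏ j, (mu w y (d j) : ℂ) := by
      rw [e0 (fun d => G (fun j => Om (d j) + l j))]
      simp only [hc]
    have hB : ∑ d ∈ box (k + 1) Z, G (fun j => Om (d j)) * ∏ j, (mu w y (d j) : ℂ) =
        ∑ a ∈ Icc 1 Z, (mu w y a : ℂ) * ∑ d ∈ box k Z,
          G (Fin.cons (Om a) (fun j => Om (d j))) * ∏ j, (mu w y (d j) : ℂ) := by
      rw [e0 (fun d => G (fun j => Om (d j)))]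
      simp only [hc']
    set T : ℂ := ∑ a ∈ Icc 1 Z, (mu w y a : ℂ) * ∑ d ∈ box k Z,
          G (Fin.cons (Om a + l 0) (fun j => Om (d j))) * ∏ j, (mu w y (d j) : ℂ) with hT
    have f1 : ‖∑ d ∈ box (k + 1) Z, G (fun j => Om (d j) + l j) * ∏ j, (mu w y (d j) : ℂ) - T‖ ≤
        (k * τ * 2 ^ k) * 2 := by
      rw [hA, hT, ← Finset.sum_sub_distrib]
      refine (norm_sum_le _ _).trans ?_
      have g2 : ∀ a ∈ Icc 1 Z, ‖(mu w y a : ℂ) * ∑ d ∈ box k Z,
          G (Fin.cons (Om a + l 0) (fun j => Om (d j) + l j.succ)) * ∏ j, (mu w y (d j) : ℂ) -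
          (mu w y a : ℂ) * ∑ d ∈ box k Z,
          G (Fin.cons (Om a + l 0) (fun j => Om (d j))) * ∏ j, (mu w y (d j) : ℂ)‖ ≤
          mu w y a * (k * τ * 2 ^ k) := by
        intro a _
        rw [← mul_sub, norm_mul, Complex.norm_real, Real.norm_eq_abs, abs_of_nonneg (mu_nonneg w y _)]
        apply mul_le_mul_of_nonneg_left _ (mu_nonneg w y _)
        exact ih (fun v => G (Fin.cons (Om a + l 0) v)) (fun v => hG _) (fun j => l j.succ)
          (fun j => hl _)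
      refine (Finset.sum_le_sum g2).trans ?_
      rw [← Finset.sum_mul, mul_comm]
      exact mul_le_mul_of_nonneg_left hs (by positivity)
    have f2 : ‖T - ∑ d ∈ box (k + 1) Z, G (fun j => Om (d j)) * ∏ j, (mu w y (d j) : ℂ)‖ ≤
        τ * 2 ^ k := by
      have g1 : T - ∑ d ∈ box (k + 1) Z, G (fun j => Om (d j)) * ∏ j, (mu w y (d j) : ℂ) =
          ∑ d ∈ box k Z, (∏ j, (mu w y (d j) : ℂ)) *
          (∑ a ∈ Icc 1 Z, G (Fin.cons (Om a + l 0) (fun j => Om (d j))) * (mu w y a : ℂ) -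
            ∑ a ∈ Icc 1 Z, G (Fin.cons (Om a) (fun j => Om (d j))) * (mu w y a : ℂ)) := by
        rw [hB, hT, ← Finset.sum_sub_distrib]
        simp only [← mul_sub]
        simp only [← Finset.sum_sub_distrib]
        simp only [Finset.mul_sum]
        rw [Finset.sum_comm]
        refine Finset.sum_congr rfl fun d _ => Finset.sum_congr rfl fun a _ => ?_
        ring
      rw [g1]
      refine (norm_sum_le _ _).trans ?_
      have g2 : ∀ d ∈ box k Z, ‖(∏ j, (mu w y (d j) : ℂ)) *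
          (∑ a ∈ Icc 1 Z, G (Fin.cons (Om a + l 0) (fun j => Om (d j))) * (mu w y a : ℂ) -
            ∑ a ∈ Icc 1 Z, G (Fin.cons (Om a) (fun j => Om (d j))) * (mu w y a : ℂ))‖ ≤
          (∏ j, mu w y (d j)) * τ := by
        intro d _
        rw [norm_mul, norm_prod]
        have g3 : ∏ j, ‖(mu w y (d j) : ℂ)‖ = ∏ j, mu w y (d j) := by
          refine Finset.prod_congr rfl fun j _ => ?_
          rw [Complex.norm_real, Real.norm_eq_abs, abs_of_nonneg (mu_nonneg w y _)]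
        rw [g3]
        apply mul_le_mul_of_nonneg_left _ (Finset.prod_nonneg fun j _ => mu_nonneg w y _)
        exact h1 (fun a => G (Fin.cons a (fun j => Om (d j)))) (fun v => hG _) (l 0) (hl 0)
      refine (Finset.sum_le_sum g2).trans ?_
      rw [← Finset.sum_mul, sum_box, mul_comm]
      exact mul_le_mul_of_nonneg_left (pow_le_pow_left₀ hs0 hs k) hτ
    calc _ ≤ _ := norm_sub_le_norm_sub_add_norm_sub _ T _
      _ ≤ (k * τ * 2 ^ k) * 2 + τ * 2 ^ k := add_le_add f1 f2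
      _ ≤ ((k + 1 : ℕ) : ℝ) * τ * 2 ^ (k + 1) := by
        push_cast
        have h5 : 0 ≤ τ * 2 ^ k := by positivity
        have h6 : ((k : ℝ) + 1) * τ * 2 ^ (k + 1) = k * τ * 2 ^ k * 2 + τ * 2 ^ k * 2 := by ring
        linarith

end Pool.Agent.W208.TL
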