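import Pool.Agent.W208.TL.Basic

/-! The pair estimate for the structure theorem -/

set_option autoImplicit false

namespace Pool.Agent.W208.TL

open Finset

theorem card_res (M Q b : ℕ) :
    (((Ioc 0 M).filter (fun m => m ≡ b [MOD Q])).card) ≤ M / Q + 1 := by
  have : (((Ioc 0 M).filter (fun m => m ≡ b [MOD Q])).card) ≤ (range (M / Q + 1)).card := by
    apply card_le_card_of_injOn (fun m => m / Q)
    · intro m hm
      rw [mem_coe, mem_filter, mem_Ioc] at hm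
      rw [mem_coe, mem_range]
      exact Nat.lt_succ_of_le (Nat.div_le_div_right hm.1.2)
    · intro m hm m' hm' h
      rw [mem_coe, mem_filter] at hm hm'
      have h1 : m % Q = m' % Q := hm.2.trans hm'.2.symm
      have h2 : m / Q = m' / Q := h
      rw [← Nat.div_add_mod m Q, ← Nat.div_add_mod m' Q, h1, h2]
  rwa [card_range] at this

theorem card_cls {Q r : ℕ} (hr : 1 ≤ r) (hrQ : r ∣ Q) (T : Finset ℕ) (hT : T ⊆ range Q)
    (h : ∀ b ∈ T, ∀ b' ∈ T, b ≡ b' [MOD r]) : T.card ≤ Q / r := by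
  have : T.card ≤ (range (Q / r)).card := by
    apply card_le_card_of_injOn (fun m => m / r)
    · intro m hm
      have h1 := hT hm
      rw [mem_range] at h1
      rw [mem_coe, mem_range]
      rw [Nat.div_lt_iff_lt_mul (by omega), Nat.div_mul_cancel hrQ]
      exact h1
    · intro m hm m' hm' h'
      have h1 : m % r = m' % r := h m hm m' hm'
      have h2 : m / r = m' / r := h'
      rw [← Nat.div_add_mod m r, ← Nat.div_add_mod m' r, h1, h2]
  rwa [card_range] at this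

theorem card_T {Q V l p : ℕ} {a : ℤ} (hl : l.Prime) (hp : p.Prime) (hpa : ¬ (p : ℤ) ∣ a)
    (hV : 1 ≤ V) (hd : l ^ V ∣ Q) :
    ((range Q).filter (fun b => l ^ V ∣ lf p a b)).card ≤ Q / l ^ V := by
  apply card_cls (Nat.one_le_pow _ _ hl.pos) hd _ (filter_subset _ _)
  intro b hb b' hb'
  rw [mem_filter] at hb hb'
  have h1 : ((l ^ V : ℕ) : ℤ) ∣ (p : ℤ) * b + a := Int.natCast_dvd.2 hb.2
  have h2 : ((l ^ V : ℕ) : ℤ) ∣ (p : ℤ) * b' + a := Int.natCast_dvd.2 hb'.2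
  have hne : l ≠ p := by
    rintro rfl
    apply hpa
    have h3 : (l : ℤ) ∣ (l : ℤ) * b + a := by
      refine dvd_trans ?_ h1
      exact_mod_cast dvd_pow_self l (by omega : V ≠ 0)
    exact (Int.dvd_add_right (dvd_mul_right _ _)).1 h3
  have h4 : ((l ^ V : ℕ) : ℤ) ∣ (p : ℤ) * ((b' : ℤ) - b) := by
    have := dvd_sub h2 h1
    have e : (p : ℤ) * b' + a - ((p : ℤ) * b + a) = (p : ℤ) * ((b' : ℤ) - b) := by ring
    rwa [e] at this
  have h5 : IsCoprime ((l ^ V : ℕ) : ℤ) (p : ℤ) := by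
    rw [Nat.isCoprime_iff_coprime]
    exact Nat.Coprime.pow_left V ((Nat.coprime_primes hl hp).2 hne)
  exact (Nat.modEq_iff_dvd).2 (h5.dvd_of_dvd_mul_left h4)

/-- exceptional classes -/
def Exc {k : ℕ} (w V p q : ℕ) (a : Fin k → ℤ) (b : ℕ) : Prop :=
  ∃ l ∈ PP 0 w, ∃ j : Fin k, l ^ V ∣ lf p (a j) b ∨ l ^ V ∣ lf q (a j) b

open Classical in
theorem card_exc {k w V p q : ℕ} {a : Fin k → ℤ} (hp : p.Prime) (hq : q.Prime)
    (hpa : ∀ j, ¬ (p : ℤ) ∣ a j) (hqa : ∀ j, ¬ (q : ℤ) ∣ a j) (hV : 1 ≤ V) :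
    (((range (QQ w V)).filter (Exc w V p q a)).card : ℝ) ≤ 2 * k * w * (QQ w V : ℝ) / 2 ^ V := by
  set Q := QQ w V with hQ
  have hsub : (range Q).filter (Exc w V p q a) ⊆ (PP 0 w).biUnion (fun l =>
      (univ : Finset (Fin k)).biUnion (fun j => (range Q).filter (fun b => l ^ V ∣ lf p (a j) b) ∪
        (range Q).filter (fun b => l ^ V ∣ lf q (a j) b))) := by
    intro b hb
    rw [mem_filter] at hb
    obtain ⟨h1, l, hl, j, hj⟩ := hb
    rw [mem_biUnion]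
    refine ⟨l, hl, ?_⟩
    rw [mem_biUnion]
    refine ⟨j, mem_univ _, ?_⟩
    rw [mem_union, mem_filter, mem_filter]
    tauto
  have hT : ∀ l ∈ PP 0 w, ∀ r : ℕ, r.Prime → (∀ j, ¬ (r : ℤ) ∣ a j) → ∀ j : Fin k,
      (((range Q).filter (fun b => l ^ V ∣ lf r (a j) b)).card : ℝ) ≤ (Q : ℝ) / 2 ^ V := by
    intro l hl r hr hra j
    have h1 := card_T (Q := Q) (V := V) (a := a j) (mem_PP.1 hl).2 hr (hra j) hV (pow_dvd_QQ hl)
    have h2 : ((Q / l ^ V : ℕ) : ℝ) ≤ (Q : ℝ) / ((l ^ V : ℕ) : ℝ) := Nat.cast_div_le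
    have h3 : (Q : ℝ) / ((l ^ V : ℕ) : ℝ) ≤ (Q : ℝ) / 2 ^ V := by
      apply div_le_div_of_nonneg_left (Nat.cast_nonneg _) (by positivity)
      push_cast
      apply pow_le_pow_left₀ (by norm_num)
      exact_mod_cast (mem_PP.1 hl).2.two_le
    have h4 : (((range Q).filter (fun b => l ^ V ∣ lf r (a j) b)).card : ℝ) ≤
      ((Q / l ^ V : ℕ) : ℝ) := by exact_mod_cast h1
    linarith
  have h1 : (((range Q).filter (Exc w V p q a)).card : ℝ) ≤
      ∑ l ∈ PP 0 w, ∑ j : Fin k, ((Q : ℝ) / 2 ^ V + (Q : ℝ) / 2 ^ V) := by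
    have h2 := (card_le_card hsub).trans card_biUnion_le
    have h3 : (((range Q).filter (Exc w V p q a)).card : ℝ) ≤
        ∑ l ∈ PP 0 w, ((((univ : Finset (Fin k)).biUnion (fun j =>
          (range Q).filter (fun b => l ^ V ∣ lf p (a j) b) ∪
            (range Q).filter (fun b => l ^ V ∣ lf q (a j) b))).card : ℕ) : ℝ) := by
      exact_mod_cast h2
    refine h3.trans (sum_le_sum fun l hl => ?_)
    have h4 : ((((univ : Finset (Fin k)).biUnion (fun j =>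
          (range Q).filter (fun b => l ^ V ∣ lf p (a j) b) ∪
            (range Q).filter (fun b => l ^ V ∣ lf q (a j) b))).card : ℕ) : ℝ) ≤
        ∑ j : Fin k, ((((range Q).filter (fun b => l ^ V ∣ lf p (a j) b) ∪
            (range Q).filter (fun b => l ^ V ∣ lf q (a j) b)).card : ℕ) : ℝ) := by
      exact_mod_cast card_biUnion_le
    refine h4.trans (sum_le_sum fun j _ => ?_)
    have h5 : ((((range Q).filter (fun b => l ^ V ∣ lf p (a j) b) ∪
            (range Q).filter (fun b => l ^ V ∣ lf q (a j) b)).card : ℕ) : ℝ) ≤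
        (((range Q).filter (fun b => l ^ V ∣ lf p (a j) b)).card : ℝ) +
          (((range Q).filter (fun b => l ^ V ∣ lf q (a j) b)).card : ℝ) := by
      exact_mod_cast card_union_le _ _
    have h6 := hT l hl p hp hpa j
    have h7 := hT l hl q hq hqa j
    linarith
  rw [sum_const, sum_const, card_univ, Fintype.card_fin, nsmul_eq_mul, nsmul_eq_mul] at h1
  have h8 : ((PP 0 w).card : ℝ) ≤ w := by
    have : (PP 0 w).card ≤ (Ioc 0 w).card := card_le_card (filter_subset _ _)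
    rw [Nat.card_Ioc] at this
    exact_mod_cast this
  have h9 : (0 : ℝ) ≤ k * ((Q : ℝ) / 2 ^ V + (Q : ℝ) / 2 ^ V) := by positivity
  have h10 := mul_le_mul_of_nonneg_right h8 h9
  refine h1.trans (h10.trans (le_of_eq ?_))
  ring

theorem box_append {k w y Z : ℕ} (G1 G2 : (Fin k → ℕ) → ℂ) :
    ∑ D ∈ box (k + k) Z, (G1 (fun i => D (Fin.castAdd k i)) * G2 (fun i => D (Fin.natAdd k i))) *
      ∏ i, (mu w y (D i) : ℂ) =
    (∑ d ∈ box k Z, G1 d * ∏ i, (mu w y (d i) : ℂ)) *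
      (∑ d ∈ box k Z, G2 d * ∏ i, (mu w y (d i) : ℂ)) := by
  rw [sum_mul_sum, ← sum_product']
  symm
  apply sum_nbij' (i := fun x => Fin.append x.1 x.2)
    (j := fun D => (fun i => D (Fin.castAdd k i), fun i => D (Fin.natAdd k i)))
  · intro x hx
    rw [mem_product] at hx
    unfold box at hx ⊢
    rw [Fintype.mem_piFinset, Fintype.mem_piFinset] at hx
    rw [Fintype.mem_piFinset]
    intro i
    refine Fin.addCases (fun i => ?_) (fun i => ?_) i
    · rw [Fin.append_left]; exact hx.1 i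
    · rw [Fin.append_right]; exact hx.2 i
  · intro D hD
    unfold box at hD ⊢
    rw [Fintype.mem_piFinset] at hD
    rw [mem_product, Fintype.mem_piFinset, Fintype.mem_piFinset]
    exact ⟨fun i => hD _, fun i => hD _⟩
  · intro x _
    apply Prod.ext
    · funext i
      exact Fin.append_left _ _ _
    · funext i
      exact Fin.append_right _ _ _
  · intro D _
    simp only
    exact Fin.append_castAdd_natAdd
  · intro x _
    simp only [Fin.append_left, Fin.append_right, Fin.prod_univ_add]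
    ring

theorem box_mu (k w y Z : ℕ) :
    ∑ d ∈ box k Z, ∏ i, (mu w y (d i) : ℂ) = (∑ d ∈ Icc 1 Z, (mu w y d : ℂ)) ^ k := by
  have := prod_univ_sum (fun _ : Fin k => Icc 1 Z) (fun _ d => (mu w y d : ℂ))
  unfold box
  rw [← this, prod_const, card_univ, Fintype.card_fin]

theorem cav_zero {k w y Z : ℕ} (Φ : (Fin k → ℕ) → ℂ) (A : Fin k → ℕ)
    (hs : ∑ d ∈ Icc 1 Z, (mu w y d : ℂ) ≠ 0) :
    ∑ d ∈ box k Z, (Φ (fun j => A j * d j) - cav w y Z Φ A) * ∏ i, (mu w y (d i) : ℂ) = 0 := by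
  simp only [sub_mul]
  rw [sum_sub_distrib, ← mul_sum, box_mu]
  unfold cav
  rw [div_mul_cancel₀ _ (pow_ne_zero _ hs), sub_self]

theorem cav_norm {k w y Z : ℕ} (Φ : (Fin k → ℕ) → ℂ) (hΦ : ∀ d, ‖Φ d‖ ≤ 1) (A : Fin k → ℕ) :
    ‖cav w y Z Φ A‖ ≤ 1 := by
  unfold cav
  rw [norm_div]
  apply div_le_one_of_le₀ _ (norm_nonneg _)
  rw [← box_mu]
  have h1 : ‖∑ d ∈ box k Z, ∏ i, (mu w y (d i) : ℂ)‖ = ∑ d ∈ box k Z, ∏ i, mu w y (d i) := by
    have : ∑ d ∈ box k Z, ∏ i, (mu w y (d i) : ℂ) = ((∑ d ∈ box k Z, ∏ i, mu w y (d i) : ℝ) : ℂ) := by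
      push_cast
      rfl
    rw [this, Complex.norm_real, Real.norm_of_nonneg]
    exact sum_nonneg fun d _ => prod_nonneg fun i _ => mu_nonneg _ _ _
  rw [h1]
  refine (norm_sum_le _ _).trans (sum_le_sum fun d _ => ?_)
  rw [norm_mul, norm_prod]
  have h2 : ∏ i, ‖(mu w y (d i) : ℂ)‖ = ∏ i, mu w y (d i) := by
    apply prod_congr rfl
    intro i _
    rw [Complex.norm_real, Real.norm_of_nonneg (mu_nonneg _ _ _)]
  rw [h2]
  have h3 : 0 ≤ ∏ i, mu w y (d i) := prod_nonneg fun i _ => mu_nonneg _ _ _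
  have := mul_le_mul_of_nonneg_right (hΦ (fun j => A j * d j)) h3
  rwa [one_mul] at this

/-- the test function -/
noncomputable def FF {k : ℕ} (w y Z Q : ℕ) (a : Fin k → ℤ) (Φ : (Fin k → ℕ) → ℂ) (ρ : ℕ → ℂ)
    (n : ℕ) : ℂ :=
  (1 / 2 : ℂ) * (ρ n * (Φ (fun j => sm 0 y (lf 1 (a j) n)) -
        cav w y Z Φ (fun j => Nat.gcd (lf 1 (a j) n) Q)))

theorem FF_norm {k w y Z Q : ℕ} {a : Fin k → ℤ} {Φ : (Fin k → ℕ) → ℂ} {ρ : ℕ → ℂ}
    (hΦ : ∀ d, ‖Φ d‖ ≤ 1) (hρ : ∀ n, ‖ρ n‖ ≤ 1) (n : ℕ) : ‖FF w y Z Q a Φ ρ n‖ ≤ 1 := by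
  unfold FF
  rw [norm_mul, norm_mul]
  have h1 : ‖(1 / 2 : ℂ)‖ = 1 / 2 := by norm_num
  have h2 := norm_sub_le (Φ (fun j => sm 0 y (lf 1 (a j) n)))
    (cav w y Z Φ (fun j => Nat.gcd (lf 1 (a j) n) Q))
  have h3 := hΦ (fun j => sm 0 y (lf 1 (a j) n))
  have h4 := cav_norm (w := w) (y := y) (Z := Z) Φ hΦ (fun j => Nat.gcd (lf 1 (a j) n) Q)
  have h5 := mul_le_mul (hρ n) (h2.trans (add_le_add h3 h4)) (norm_nonneg _) zero_le_one
  rw [h1]
  linarith

theorem per_mod {Q0 : ℕ} {ρ : ℕ → ℂ} (h : ∀ n, ρ (n + Q0) = ρ n) {m n : ℕ} (hmn : m ≡ n [MOD Q0]) :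
    ρ m = ρ n := by
  have h1 : ∀ c n : ℕ, ρ (n + Q0 * c) = ρ n := by
    intro c
    induction c with
    | zero => intro n; simp
    | succ c ih => intro n; rw [Nat.mul_succ, ← Nat.add_assoc, h, ih]
  rw [← Nat.mod_add_div m Q0, ← Nat.mod_add_div n Q0, h1, h1, hmn]

/-- the value of the test function at `p m` for `m` in a non-exceptional class -/
theorem FF_val {k w y Z V Q0 p b m : ℕ} {a : Fin k → ℤ} {Φ : (Fin k → ℕ) → ℂ} {ρ : ℕ → ℂ}
    (hwy : w ≤ y) (hQ0 : Q0 ∣ QQ w V) (hper : ∀ n, ρ (n + Q0) = ρ n)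
    (hb : ∀ l ∈ PP 0 w, ∀ j, ¬ l ^ V ∣ lf p (a j) b) (hm : m ≡ b [MOD QQ w V]) :
    FF w y Z (QQ w V) a Φ ρ (p * m) = (1 / 2 : ℂ) * (ρ (p * b) *
      (Φ (fun j => Nat.gcd (lf p (a j) b) (QQ w V) * sm w y (lf p (a j) m)) -
        cav w y Z Φ (fun j => Nat.gcd (lf p (a j) b) (QQ w V)))) := by
  unfold FF
  have h1 : ρ (p * m) = ρ (p * b) := per_mod hper ((hm.of_dvd hQ0).mul_left p)
  have h2 : (fun j => Nat.gcd (lf 1 (a j) (p * m)) (QQ w V)) =
      (fun j => Nat.gcd (lf p (a j) b) (QQ w V)) := by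
    funext j
    rw [lf_mul, gcd_lf (a j) hm]
  have h3 : (fun j => sm 0 y (lf 1 (a j) (p * m))) =
      (fun j => Nat.gcd (lf p (a j) b) (QQ w V) * sm w y (lf p (a j) m)) := by
    funext j
    rw [lf_mul, sm_split hwy, ← gcd_lf (a j) hm, gcd_QQ]
    intro l hl hd
    exact hb l hl j ((dvd_lf (a j) hm (pow_dvd_QQ hl)).1 hd)
  rw [h1, h2, h3]

end Pool.Agent.W208.TL
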