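import Pool.Agent.W208.TL.Stm

/-! Further statements of project TL -/

set_option autoImplicit false

namespace Pool.Agent.W208.TL

open Finset Filter

/-- SI: the number of prime factors of a random integer with the law `mu w y` is nearly invariant
under shifts, in total variation, for `y` large -/
def SI : Prop := ∀ (w L : ℕ) (η : ℝ), 0 < η → ∃ y0 : ℕ, ∀ y Z : ℕ, y0 ≤ y → ∀ ε : ℝ,
  |∑ d ∈ Icc 1 Z, mu w y d - 1| ≤ ε → ∀ g : ℕ → ℂ, (∀ l, ‖g l‖ ≤ 1) → ∀ l : ℕ, l ≤ L →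
    ‖∑ d ∈ Icc 1 Z, g (ArithmeticFunction.cardFactors d + l) * (mu w y d : ℂ) -
      ∑ d ∈ Icc 1 Z, g (ArithmeticFunction.cardFactors d) * (mu w y d : ℂ)‖ ≤ 2 * ε + η

/-- OMT: independence of `Ω(n + h0)` (exactly) and of the numbers of prime factors up to
`X ^ (1 / A)` (exactly) of the other shifts -/
def OMT : Prop := ∀ (k h0 : ℕ) (h : Fin k → ℕ), 1 ≤ k → Function.Injective h → (∀ j, h j ≠ h0) →
  ∀ ε : ℝ, 0 < ε → ∃ A y0 : ℕ, 1 ≤ A ∧ ∀ y X : ℕ, y0 ≤ y → y ^ A ≤ X →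
    ∀ f : ℕ → ℂ, KF f → ∀ G : (Fin k → ℕ) → ℂ, (∀ l, ‖G l‖ ≤ 1) →
      ‖(∑ n ∈ Ioc 0 X, f (n + h0) *
            G (fun j => ArithmeticFunction.cardFactors (sm 0 y (n + h j)))) / (X : ℂ) -
        ((∑ n ∈ Ioc 0 X, f n) / (X : ℂ)) *
          ((∑ m ∈ Fintype.piFinset (fun _ : Fin k => Ioc 0 X),
            G (fun j => ArithmeticFunction.cardFactors (sm 0 y (m j)))) / (X : ℂ) ^ k)‖ ≤ ε

end Pool.Agent.W208.TL
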